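import Pool.Agent.Zk89.KC.Main
import Pool.Agent.Zk89.KB.Fin
import Pool.Agent.Zk89.AP.Alg

/-!
# Kolmogorov actions and extensions: polynomials
-/

set_option autoImplicit false
set_option linter.unusedSectionVars false

open MeasureTheory Filter Topology Polynomial
open scoped ENNReal

noncomputable section

namespace Pool.Agent.Zk89.KC

open Pool.Agent.W761.Box (bx bxc BM Good1 bxc_add bxc_sub bxc_mul)
open Pool.Agent.TH784.KE hiding count_close lines_ae bound_ae tendsto_close box_zero orth_line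
  line_bound zero_real zero_complex
open Pool.Agent.W761.Gauss (IsFactor BM_of_memLp)
open Pool.Agent.Zk89.KB (perm_prod factor_const kext_bot)
open Pool.Agent.Zk89.BT (G1)

theorem zpow_ell {X G : Type*} [Group G] {mX mA : MeasurableSpace X} {Φ : G →* Equiv.Perm X}
    {ℓ : G → ℝ} (hA : Filt mX mA Φ ℓ) (a : G) (z : ℤ) : ℓ (a ^ z) = z * ℓ a := by
  cases z with
  | ofNat n => rw [Int.ofNat_eq_natCast, zpow_natCast, hA.pow]; push_cast; rfl
  | negSucc n =>
    rw [zpow_negSucc, hA.inv, hA.pow]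
    push_cast
    ring

section

variable {X G : Type*} [CommGroup G] {mA mY mX : MeasurableSpace X} {μ : Measure X}
  [IsProbabilityMeasure μ] {Φ : G →* Equiv.Perm X} {ℓ : G → ℝ} {d : ℕ}

/-- the polynomial `∑ ℓ(g_i) P_i` -/
def plev (ℓ : G → ℝ) (g : Fin d → G) (P : Fin d → ℤ[X]) : ℝ[X] :=
  ∑ i, C (ℓ (g i)) * (P i).map (Int.castRingHom ℝ)

theorem ell_prod (hA : Filt mX mA Φ ℓ) (g : Fin d → G) (e : Fin d → ℤ) :
    ℓ (∏ i, g i ^ e i) = ∑ i, e i * ℓ (g i) := by
  classical
  have h : ∀ s : Finset (Fin d), ℓ (∏ i ∈ s, g i ^ e i) = ∑ i ∈ s, e i * ℓ (g i) := by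
    intro s
    induction s using Finset.induction_on with
    | empty => simp [hA.one]
    | insert i s hi ih =>
      rw [Finset.prod_insert hi, Finset.sum_insert hi, hA.hom, ih, zpow_ell hA]
  exact h _

theorem sq_eq (g : Fin d → G) (P : Fin d → ℤ[X]) (t : ℕ) :
    sq g P t = ∏ i, g i ^ (P i).eval (t : ℤ) := by
  unfold sq
  rw [List.prod_ofFn]

theorem ell_sq (hA : Filt mX mA Φ ℓ) (g : Fin d → G) (P : Fin d → ℤ[X]) (t : ℕ) :
    ℓ (sq g P t) = (plev ℓ g P).eval (t : ℝ) := by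
  rw [sq_eq, ell_prod hA]
  unfold plev
  rw [eval_finsetSum]
  refine Finset.sum_congr rfl fun i _ => ?_
  rw [eval_mul, eval_C, mul_comm, eval_natCast_map]
  rfl

/-- dichotomy for real polynomials vanishing at zero -/
theorem steep_or {Q : ℝ[X]} (h0 : Q.eval 0 = 0) :
    (Steep fun t : ℕ => Q.eval (t : ℝ)) ∨ ∀ t : ℕ, Q.eval (t : ℝ) = 0 := by
  rcases Nat.eq_zero_or_pos Q.natDegree with h | h
  · right
    intro t
    have h1 := eq_C_of_natDegree_eq_zero h
    rw [h1, eval_C] at h0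
    rw [h1, h0, C_0, eval_zero]
  · exact Or.inl (steep_poly h)

theorem inj_of (hA : Filt mX mA Φ ℓ) (hinj : ∀ g : G, ℓ g = 0 → g = 1) {g h : G}
    (hgh : ℓ g = ℓ h) : g = h := by
  have : ℓ (g * h⁻¹) = 0 := by
    rw [hA.hom, hA.inv]
    linarith
  exact mul_inv_eq_one.1 (hinj _ this)

theorem sq_zero {g : Fin d → G} {P : Fin d → ℤ[X]} (h0 : ∀ i, (P i).eval 0 = 0) :
    sq g P 0 = 1 := by
  rw [sq_eq]
  refine Finset.prod_eq_one fun i _ => ?_
  rw [Nat.cast_zero, h0, zpow_zero]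

theorem plev_zero (hA : Filt mX mA Φ ℓ) {g : Fin d → G} {P : Fin d → ℤ[X]}
    (h0 : ∀ i, (P i).eval 0 = 0) : (plev ℓ g P).eval 0 = 0 := by
  have := ell_sq hA g P 0
  rw [sq_zero h0, hA.one] at this
  simpa using this.symm

theorem sq_or (hA : Filt mX mA Φ ℓ) (hinj : ∀ g : G, ℓ g = 0 → g = 1) {g : Fin d → G}
    {P : Fin d → ℤ[X]} (h0 : ∀ i, (P i).eval 0 = 0) :
    (Steep fun t => ℓ (sq g P t)) ∨ ∀ t, sq g P t = 1 := by
  rcases steep_or (plev_zero (g := g) hA h0) with h | h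
  · left
    simp only [ell_sq hA]
    exact h
  · right
    intro t
    apply hinj
    rw [ell_sq hA, h]

theorem sq_or2 (hA : Filt mX mA Φ ℓ) (hinj : ∀ g : G, ℓ g = 0 → g = 1) {g : Fin d → G}
    {P P' : Fin d → ℤ[X]} (h0 : ∀ i, (P i).eval 0 = 0) (h0' : ∀ i, (P' i).eval 0 = 0) :
    (Steep fun t => ℓ (sq g P t) - ℓ (sq g P' t)) ∨ ∀ t, sq g P t = sq g P' t := by
  have h1 : (plev ℓ g P - plev ℓ g P').eval 0 = 0 := by
    rw [eval_sub, plev_zero hA h0, plev_zero hA h0', sub_zero]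
  rcases steep_or h1 with h | h
  · left
    simp only [ell_sq hA]
    simpa only [eval_sub] using h
  · right
    intro t
    apply inj_of hA hinj
    have := h t
    rw [eval_sub] at this
    rw [ell_sq hA, ell_sq hA]
    linarith

theorem g1_const {w : ℕ → G} (h : ∀ t, w t = 1) : G1 μ (fun n => (Φ (w n) : X → X)) := by
  intro H _ _
  refine Eventually.of_forall fun x => ⟨H x, ?_⟩
  refine tendsto_const_nhds.congr' ?_
  filter_upwards [eventually_gt_atTop 0] with N hN
  simp only [h, map_one, Equiv.Perm.one_apply, Finset.sum_const, Finset.card_range, nsmul_eq_mul]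
  have : (N : ℝ) ≠ 0 := by positivity
  field_simp

theorem const_of_bot {e : X → ℂ} (he : Measurable[⊥] e) (x₀ : X) : ∀ x, e x = e x₀ := by
  intro x
  have h1 : MeasurableSet[⊥] (e ⁻¹' {e x₀}) := he (measurableSet_singleton _)
  rcases (MeasurableSpace.measurableSet_bot_iff.1 h1) with h | h
  · have : x₀ ∈ e ⁻¹' {e x₀} := rfl
    rw [h] at this
    exact absurd this (Set.notMem_empty _)
  · have : x ∈ e ⁻¹' {e x₀} := by
      rw [h]
      exact Set.mem_univ _
    exact this

/-- one function along polynomials in a Kolmogorov action -/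
theorem g1_tr (hK : KExt μ mA ⊥ Φ ℓ) (hinj : ∀ g : G, ℓ g = 0 → g = 1) {g : Fin d → G}
    {P : Fin d → ℤ[X]} (h0 : ∀ i, (P i).eval 0 = 0) :
    G1 μ (fun n => (Φ (sq g P n) : X → X)) := by
  rcases sq_or hK.filt hinj (g := g) h0 with h | h
  · refine g1_ext hK g (fun i j => Commute.all _ _) P h fun e _ heY => ?_
    refine Eventually.of_forall fun x => ⟨e x, ?_⟩
    refine tendsto_const_nhds.congr' ?_
    filter_upwards [eventually_gt_atTop 0] with N hN
    simp only [const_of_bot heY x, Finset.sum_const, Finset.card_range, nsmul_eq_mul]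
    have : (N : ℂ) ≠ 0 := by exact_mod_cast hN.ne'
    field_simp
  · exact g1_const h

end

/-- separation of the variables, normalised -/
theorem exists_sep0 {k : ℕ} (P : MvPolynomial (Fin k) ℤ)
    (h : ∀ s ∈ P.support, s.support.card ≤ 1) :
    ∃ (b : ℤ) (Q : Fin k → ℤ[X]), (∀ l, (Q l).eval 0 = 0) ∧ ∀ m : Fin k → ℤ,
      MvPolynomial.eval m P = b + ∑ l, (Q l).eval (m l) := by
  obtain ⟨Q, hQ⟩ := Pool.Agent.Zk89.AP.exists_sep P h
  refine ⟨MvPolynomial.coeff 0 P + ∑ l, (Q l).eval 0, fun l => Q l - C ((Q l).eval 0),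
    fun l => by simp, fun m => ?_⟩
  rw [hQ]
  simp only [eval_sub, eval_C, Finset.sum_sub_distrib]
  ring

section fac

variable {X Y G : Type} [CommGroup G] {mA mY : MeasurableSpace X} [mX : MeasurableSpace X]
  [MeasurableSpace Y] {μ : Measure X} [IsProbabilityMeasure μ] {ν : Measure Y}
  {Φ : G →* Equiv.Perm X} {ℓ : G → ℝ} {d k n : ℕ}

theorem poly_el (g : Fin d → G) (b : Fin d → ℤ) (Q : Fin d → Fin k → ℤ[X]) (m : Fin k → ℕ) :
    ∏ i, g i ^ (b i + ∑ l, (Q i l).eval ((m l : ℕ) : ℤ)) =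
      el (∏ i, g i ^ b i) (fun l => sq g fun i => Q i l) m := by
  unfold el
  rw [List.prod_ofFn]
  simp only [sq_eq]
  rw [Finset.prod_comm, ← Finset.prod_mul_distrib]
  refine Finset.prod_congr rfl fun i _ => ?_
  rw [zpow_add, Pool.Agent.Zk89.KB.zpow_sum']

/-- **Part 1.** Kolmogorov actions and their factors, sums of polynomials in one variable. -/
theorem part1 (hK : KExt μ mA ⊥ Φ ℓ) (hinj : ∀ g : G, ℓ g = 0 → g = 1) (g : Fin d → G)
    {R : Fin d → Equiv.Perm Y} (hRm : ∀ i, Measurable (R i).symm)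
    (hR : ∀ i, MeasurePreserving (R i) ν ν) (hfac : IsFactor μ (fun i => Φ (g i)) ν R)
    (P : Fin d → Fin n → MvPolynomial (Fin k) ℤ)
    (hP : ∀ i j, ∀ s ∈ (P i j).support, s.support.card ≤ 1)
    (f : Fin n → Y → ℂ) (hf : ∀ j, MemLp (f j) ∞ ν) :
    (∀ᵐ y ∂ν, ∃ L : ℂ, Tendsto
      (fun M : Fin k → ℕ => (∏ j, (M j : ℂ))⁻¹ *
        ∑ m ∈ Fintype.piFinset (fun j => Finset.range (M j)),
          ∏ j : Fin n, f j ((List.ofFn fun i : Fin d =>
            R i ^ (MvPolynomial.eval (fun l => ((m l : ℕ) : ℤ)) (P i j))).prod y))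
      atTop (𝓝 L)) ∧
    ((∀ j, ∃ m m' : Fin k → ℕ, ∏ i, g i ^ (MvPolynomial.eval (fun l => ((m l : ℕ) : ℤ)) (P i j)) ≠
        ∏ i, g i ^ (MvPolynomial.eval (fun l => ((m' l : ℕ) : ℤ)) (P i j))) →
      (∀ j j', j ≠ j' → ∃ m m' : Fin k → ℕ,
        ∏ i, g i ^ (MvPolynomial.eval (fun l => ((m l : ℕ) : ℤ)) (P i j - P i j')) ≠
        ∏ i, g i ^ (MvPolynomial.eval (fun l => ((m' l : ℕ) : ℤ)) (P i j - P i j'))) →
      ∀ᵐ y ∂ν, Tendsto
      (fun M : Fin k → ℕ => (∏ j, (M j : ℂ))⁻¹ *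
        ∑ m ∈ Fintype.piFinset (fun j => Finset.range (M j)),
          ∏ j : Fin n, f j ((List.ofFn fun i : Fin d =>
            R i ^ (MvPolynomial.eval (fun l => ((m l : ℕ) : ℤ)) (P i j))).prod y))
      atTop (𝓝 (∏ j, ∫ y, f j y ∂ν))) := by
  classical
  have hTm : ∀ i, MeasurePreserving (Φ (g i)) μ μ := fun i => hK.fl _
  have hT' : ∀ i, MeasurePreserving ((Φ (g i))⁻¹ : Equiv.Perm X) μ μ := fun i => by
    rw [← map_inv]
    exact hK.fl _
  choose b Q hQ0 hQ using fun i j => exists_sep0 (P i j) (hP i j)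
  have hel : ∀ (m : Fin k → ℕ) (j : Fin n),
      ∏ i, g i ^ (MvPolynomial.eval (fun l => ((m l : ℕ) : ℤ)) (P i j)) =
      el (∏ i, g i ^ b i j) (fun l => sq g fun i => Q i j l) m := by
    intro m j
    rw [← poly_el]
    refine Finset.prod_congr rfl fun i _ => ?_
    rw [hQ]
  have hw1 : ∀ (j : Fin n) (l : Fin k), (Steep fun t => ℓ (sq g (fun i => Q i j l) t)) ∨
      ∀ t, sq g (fun i => Q i j l) t = 1 := fun j l =>
    sq_or hK.filt hinj fun i => hQ0 i j l
  have hw2 : ∀ (i' j : Fin n) (l : Fin k),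
      (Steep fun t => ℓ (sq g (fun i => Q i i' l) t) - ℓ (sq g (fun i => Q i j l) t)) ∨
      ∀ t, sq g (fun i => Q i i' l) t = sq g (fun i => Q i j l) t := fun i' j l =>
    sq_or2 hK.filt hinj (fun i => hQ0 i i' l) fun i => hQ0 i j l
  have hG1 : ∀ (j : Fin n) (l : Fin k),
      G1 μ fun t => (Φ (sq g (fun i => Q i j l) t) : X → X) := fun j l =>
    g1_tr hK hinj fun i => hQ0 i j l
  constructor
  · refine Pool.Agent.TH784.AA.factor_gen hTm hT' hRm hR hfac
      (fun m i j => MvPolynomial.eval (fun l => ((m l : ℕ) : ℤ)) (P i j)) (fun F hF => ?_) hf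
    have h1 := conv_all hK hinj (fun j => ∏ i, g i ^ b i j)
      (fun j l => sq g fun i => Q i j l) hw1 hG1 hw2 hF
    simp only [perm_prod, hel]
    exact h1
  · intro hP1 hP2
    refine factor_const hTm hT' hRm hR hfac
      (fun m i j => MvPolynomial.eval (fun l => ((m l : ℕ) : ℤ)) (P i j)) (fun F hF => ?_) hf
    have h1 := conv_tr hK hinj (fun j => ∏ i, g i ^ b i j)
      (fun j l => sq g fun i => Q i j l) hw1 hG1 hw2
      (fun j => by
        by_contra hcon
        push Not at hcon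
        obtain ⟨m, m', hm⟩ := hP1 j
        apply hm
        rw [hel, hel]
        exact el_congr fun l => Or.inr (hcon l))
      (fun j j' hjj' => by
        by_contra hcon
        push Not at hcon
        obtain ⟨m, m', hm⟩ := hP2 j j' hjj'
        apply hm
        have h2 : ∀ m : Fin k → ℕ,
            ∏ i, g i ^ (MvPolynomial.eval (fun l => ((m l : ℕ) : ℤ)) (P i j - P i j')) =
            (∏ i, g i ^ b i j) * (∏ i, g i ^ b i j')⁻¹ := by
          intro m
          have h3 : ∏ i, g i ^ (MvPolynomial.eval (fun l => ((m l : ℕ) : ℤ)) (P i j - P i j')) =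
              (∏ i, g i ^ (MvPolynomial.eval (fun l => ((m l : ℕ) : ℤ)) (P i j))) *
              (∏ i, g i ^ (MvPolynomial.eval (fun l => ((m l : ℕ) : ℤ)) (P i j')))⁻¹ := by
            rw [← Finset.prod_inv_distrib, ← Finset.prod_mul_distrib]
            refine Finset.prod_congr rfl fun i _ => ?_
            rw [map_sub, zpow_sub]
          rw [h3, hel, hel, el_split, el_split (∏ i, g i ^ b i j'), mul_inv]
          have h4 : (fun l => sq g fun i => Q i j l) = fun l => sq g fun i => Q i j' l := by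
            funext l t
            exact hcon l t
          rw [h4]
          exact mul_mul_mul_comm _ _ _ _ |>.trans (by rw [mul_inv_cancel, mul_one])
        rw [h2, h2])
      hF
    simp only [perm_prod, hel]
    exact h1

/-- Convergence of the averages along polynomials in one variable, for all functions of a class. -/
def Along {X : Type} [MeasurableSpace X] {d : ℕ} (μ : Measure X) (T : Fin d → Equiv.Perm X)
    (S : (X → ℂ) → Prop) : Prop :=
  ∀ (n : ℕ) (P : Fin d → Fin n → ℤ[X]) (f : Fin n → X → ℂ), (∀ j, S (f j)) →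
    ∀ᵐ x ∂μ, ∃ L : ℂ, Tendsto (fun M : ℕ => (M : ℂ)⁻¹ * ∑ m ∈ Finset.range M,
      ∏ j, f j ((List.ofFn fun i => T i ^ (P i j).eval (m : ℤ)).prod x)) atTop (𝓝 L)

theorem tendsto_eval0 : Tendsto (fun N : Fin 1 → ℕ => N 0) atTop atTop :=
  tendsto_atTop_atTop.2 fun b => ⟨fun _ => b, fun N hN => hN 0⟩

/-- **Part 2.** Passage to Kolmogorov extensions and their factors. -/
theorem part2 (hK : KExt μ mA mY Φ ℓ) (hinj : ∀ g : G, ℓ g = 0 → g = 1) (g : Fin d → G)
    (hbase : Along μ (fun i => Φ (g i))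
      fun e => Measurable[mY] e ∧ ∃ C : ℝ, ∀ x, ‖e x‖ ≤ C)
    {R : Fin d → Equiv.Perm Y} (hRm : ∀ i, Measurable (R i).symm)
    (hR : ∀ i, MeasurePreserving (R i) ν ν) (hfac : IsFactor μ (fun i => Φ (g i)) ν R) :
    Along ν R fun f => MemLp f ∞ ν := by
  classical
  intro n P f hf
  have hTm : ∀ i, MeasurePreserving (Φ (g i)) μ μ := fun i => hK.fl _
  have hT' : ∀ i, MeasurePreserving ((Φ (g i))⁻¹ : Equiv.Perm X) μ μ := fun i => by
    rw [← map_inv]
    exact hK.fl _
  set Q : Fin d → Fin n → ℤ[X] := fun i j => P i j - C ((P i j).eval 0) with hQ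
  have hQ0 : ∀ i j, (Q i j).eval 0 = 0 := fun i j => by simp [hQ]
  have hel : ∀ (t : ℕ) (j : Fin n), ∏ i, g i ^ (P i j).eval (t : ℤ) =
      (∏ i, g i ^ (P i j).eval 0) * sq g (fun i => Q i j) t := by
    intro t j
    rw [sq_eq, ← Finset.prod_mul_distrib]
    refine Finset.prod_congr rfl fun i _ => ?_
    rw [← zpow_add]
    congr 1
    simp [hQ]
  have hphi : ∀ (P' : Fin d → ℤ[X]) (t : ℕ),
      (List.ofFn fun i => Φ (g i) ^ (P' i).eval (t : ℤ)).prod = Φ (sq g P' t) := fun P' t =>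
    (phi_sq g P' t).symm
  have hb1 : ∀ (m : ℕ) (P' : Fin d → Fin m → ℤ[X]) (e : Fin m → X → ℂ),
      (∀ i, @BM X mX (e i)) → (∀ i, Measurable[mY] (e i)) →
      ∀ᵐ x ∂μ, ∃ L : ℂ, Tendsto (fun N : ℕ => (N : ℂ)⁻¹ * ∑ t ∈ Finset.range N,
        ∏ i, e i (Φ (sq g (fun i' => P' i' i) t) x)) atTop (𝓝 L) := by
    intro m P' e he heY
    have := hbase m P' e fun j => ⟨heY j, (he j).2⟩
    simp only [hphi] at this
    exact this
  have hG1 : ∀ j, G1 μ fun t => (Φ (sq g (fun i => Q i j) t) : X → X) := by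
    intro j
    rcases sq_or hK.filt hinj (g := g) (fun i => hQ0 i j) with h | h
    · refine g1_ext hK g (fun i j => Commute.all _ _) _ h fun e he heY => ?_
      have := hb1 1 (fun i _ => Q i j) (fun _ => e) (fun _ => he) fun _ => heY
      simpa only [Fin.prod_univ_one] using this
    · exact g1_const h
  have hfin : ∀ F : Fin n → X → ℂ, (∀ j, BM (F j)) → ∀ᵐ x ∂μ, ∃ L : ℂ,
      Tendsto (fun N : Fin 1 → ℕ => bxc 1 N fun m => ∏ j, F j
        ((List.ofFn fun i : Fin d => Φ (g i) ^ (P i j).eval ((m 0 : ℕ) : ℤ)).prod x))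
        atTop (𝓝 L) := by
    intro F hF
    have h1 := conv_ext hK (fun j => ∏ i, g i ^ (P i j).eval 0) (fun j => sq g fun i => Q i j)
      (fun j => sq_or hK.filt hinj fun i => hQ0 i j) hG1
      (fun i' j => sq_or2 hK.filt hinj (fun i => hQ0 i i') fun i => hQ0 i j)
      (fun I _ a e he heY => by
        have eq := Fintype.equivFin I
        have h2 := hb1 (Fintype.card I) (fun i' i => Q i' (a (eq.symm i)))
          (fun i => e (eq.symm i)) (fun i => he _) fun i => heY _
        refine h2.mono fun x hx => ?_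
        obtain ⟨L, hL⟩ := hx
        refine ⟨L, hL.congr fun N => ?_⟩
        congr 1
        refine Finset.sum_congr rfl fun t _ => ?_
        exact Equiv.prod_comp eq.symm fun i => e i (Φ (sq g (fun i' => Q i' (a i)) t) x)) hF
    refine h1.mono fun x hx => ?_
    obtain ⟨L, hL⟩ := hx
    refine ⟨L, (hL.comp tendsto_eval0).congr fun N => ?_⟩
    have hN : N = fun _ => N 0 := by
      funext i
      rw [Fin.fin_one_eq_zero i]
    rw [hN, Pool.Agent.Zk89.MT.bxc_one]
    simp only [Function.comp_apply, perm_prod, hel]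
  have h3 := Pool.Agent.TH784.AA.factor_gen hTm hT' hRm hR hfac
    (fun (m : Fin 1 → ℕ) i j => (P i j).eval ((m 0 : ℕ) : ℤ)) hfin hf
  refine h3.mono fun y hy => ?_
  obtain ⟨L, hL⟩ := hy
  refine ⟨L, (hL.comp tendsto_one).congr fun N => ?_⟩
  rw [Function.comp_apply, Pool.Agent.Zk89.MT.bxc_one]

end fac

theorem semi {X Z : Type*} {π : X → Z} : ∀ {d : ℕ} (A : Fin d → Equiv.Perm X)
    (B : Fin d → Equiv.Perm Z), (∀ i x, π (A i x) = B i (π x)) →
    ∀ x, π ((List.ofFn A).prod x) = (List.ofFn B).prod (π x)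
  | 0, _, _, _, x => by simp
  | d + 1, A, B, h, x => by
    rw [List.ofFn_succ, List.ofFn_succ, List.prod_cons, List.prod_cons,
      Equiv.Perm.mul_apply, Equiv.Perm.mul_apply, h,
      semi (fun i => A i.succ) (fun i => B i.succ) (fun i x => h _ x)]

/-- **Part 3.** Kolmogorov extensions of algebraic actions. -/
theorem part3 {X Y G Z : Type} [CommGroup G] {mA : MeasurableSpace X} [mX : MeasurableSpace X]
    [MeasurableSpace Y] {μ : Measure X} [IsProbabilityMeasure μ] {ν : Measure Y}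
    {Φ : G →* Equiv.Perm X} {ℓ : G → ℝ} {d : ℕ}
    [CommGroup Z] [TopologicalSpace Z] [IsTopologicalGroup Z] [CompactSpace Z]
    [T2Space Z] [mZ : MeasurableSpace Z] [BorelSpace Z] {η : Measure Z} [η.IsHaarMeasure]
    [IsProbabilityMeasure η] {π : X → Z} (hπ : MeasurePreserving π μ η)
    (hK : KExt μ mA (mZ.comap π) Φ ℓ) (hinj : ∀ g : G, ℓ g = 0 → g = 1) (g : Fin d → G)
    {T : Fin d → Equiv.Perm Z} (hT : ∀ i, ∃ (α : Z →ₜ* Z) (c : Z), ∀ z, T i z = α z * c)
    (hTc : ∀ i j, Commute (T i) (T j)) (hπT : ∀ i x, π (Φ (g i) x) = T i (π x))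
    {R : Fin d → Equiv.Perm Y} (hRm : ∀ i, Measurable (R i).symm)
    (hR : ∀ i, MeasurePreserving (R i) ν ν) (hfac : IsFactor μ (fun i => Φ (g i)) ν R) :
    Along ν R fun f => MemLp f ∞ ν := by
  refine part2 hK hinj g ?_ hRm hR hfac
  intro n P e he
  have hT' : ∀ i, Pool.Agent.TH784.AA.IsAff (T i : Z → Z) := hT
  -- the functions come from `Z`
  have hex : ∀ j, ∃ u : Z → ℂ, BM u ∧ e j = u ∘ π := by
    intro j
    obtain ⟨u, hu, hue⟩ := (he j).1.exists_eq_measurable_comp
    obtain ⟨C, hC⟩ := (he j).2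
    refine ⟨fun z => if ‖u z‖ ≤ C then u z else 0, ⟨?_, max C 0, fun z => ?_⟩, ?_⟩
    · exact Measurable.ite (measurableSet_le hu.norm measurable_const) hu measurable_const
    · show ‖if ‖u z‖ ≤ C then u z else 0‖ ≤ max C 0
      split_ifs with h
      · exact h.trans (le_max_left _ _)
      · simp
    · funext x
      have h1 : e j x = u (π x) := congrFun hue x
      show e j x = if ‖u (π x)‖ ≤ C then u (π x) else 0
      rw [if_pos (by rw [← h1]; exact hC x), h1]
  choose u hu hue using hex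
  have hTm : ∀ i, MeasurePreserving (T i) η η := fun i => (hT' i).mp
  have h1 := Pool.Agent.Zk89.AP.alg_factor (μ := η) (ν := η) (Y := Z) (k := 1) hT' hTc
    (R := T) (fun i => ((hT' i).symm.mp (μ := η)).measurable) hTm (π := id) (MeasurePreserving.id η)
    (fun i => Eventually.of_forall fun _ => rfl)
    (fun i j => Pool.Agent.Zk89.AP.sepP fun _ : Fin 1 => P i j) (f := u)
    (fun j => by
      obtain ⟨hm, C, hC⟩ := hu j
      exact MemLp.of_bound hm.aestronglyMeasurable C (Eventually.of_forall hC))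
    (fun j => Or.inl fun i s _ => (Finset.card_le_univ _).trans (by simp))
  have hRx : ∀ᵐ x ∂μ, ∃ L : ℂ, Tendsto (fun N : Fin 1 → ℕ => bxc 1 N fun m => ∏ j, u j
      ((List.ofFn fun i : Fin d => T i ^ (MvPolynomial.eval (fun l => ((m l : ℕ) : ℤ))
        (Pool.Agent.Zk89.AP.sepP fun _ : Fin 1 => P i j))).prod (π x))) atTop (𝓝 L) :=
    hπ.quasiMeasurePreserving.ae h1
  have hint : ∀ (E : Fin d → ℤ) (x : X), π ((List.ofFn fun i => Φ (g i) ^ E i).prod x) =
      (List.ofFn fun i => T i ^ E i).prod (π x) := by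
    have hz : ∀ (i : Fin d) (z : ℤ) (x : X), π ((Φ (g i) ^ z) x) = (T i ^ z) (π x) := by
      intro i z x
      have hn : ∀ (m : ℕ) (x : X), π ((Φ (g i) ^ m) x) = (T i ^ m) (π x) := by
        intro m
        induction m with
        | zero => intro x; simp
        | succ m ih =>
          intro x
          rw [pow_succ, pow_succ, Equiv.Perm.mul_apply, Equiv.Perm.mul_apply, ih, hπT]
      cases z with
      | ofNat m => simpa using hn m x
      | negSucc m =>
        rw [zpow_negSucc, zpow_negSucc]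
        apply (T i ^ (m + 1)).injective
        rw [← hn, ← Equiv.Perm.mul_apply, ← Equiv.Perm.mul_apply, mul_inv_cancel,
          mul_inv_cancel, Equiv.Perm.one_apply, Equiv.Perm.one_apply]
    intro E x
    exact semi (fun i => Φ (g i) ^ E i) (fun i => T i ^ E i) (fun i x => hz i _ x) x
  refine hRx.mono fun x hx => ?_
  obtain ⟨L, hL⟩ := hx
  refine ⟨L, (hL.comp tendsto_one).congr fun N => ?_⟩
  rw [Function.comp_apply, Pool.Agent.Zk89.MT.bxc_one]
  congr 1
  refine Finset.sum_congr rfl fun t _ => Finset.prod_congr rfl fun j _ => ?_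
  rw [hue j, Function.comp_apply, hint]
  simp only [Pool.Agent.Zk89.AP.eval_sepP, Fin.sum_univ_one]

end Pool.Agent.Zk89.KC
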