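import Pool.Agent.Zk89.KC.Line

/-!
# Box averages of functions with vanishing expectation on the base, steep levels
-/

set_option autoImplicit false
set_option linter.unusedSectionVars false

open MeasureTheory Filter Topology
open scoped ENNReal

noncomputable section

namespace Pool.Agent.Zk89.KC

open Pool.Agent.TH784.KE hiding count_close lines_ae bound_ae tendsto_close box_zero orth_line
  line_bound zero_real zero_complex
open Pool.Agent.W761.Box (bx bxc BM bx_add bx_mul bx_sum bx_mono bx_abs bx_const_le bx_nonneg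
  good1 Good1 int_lim_le' prod_update bxc_add bxc_sub bxc_mul bxc_norm)
open Pool.Agent.TH784.AA (bxs mem_bxs vol vol_pos vol_nonneg card_bxs sum_fiber bxs_mono)

variable {X : Type*} {mA mY mX : MeasurableSpace X} {μ : Measure X} [IsProbabilityMeasure μ]
variable {G : Type*} [Group G]
variable {Φ : G →* Equiv.Perm X} {ℓ : G → ℝ}
variable {J : Type*} [DecidableEq J]

/-- sums along the lines of a cube -/
theorem lines_ae {k : ℕ} (hFl : Flow μ Φ) (hA : Filt mX mA Φ ℓ) (hY : Base mY mA Φ)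
    {V : Finset J} {q : (Fin k → ℕ) → J → G} {lam : J → ℝ} {Q : J → Fin k → ℕ → ℝ}
    (hq : ∀ n v, ℓ (q n v) = lev lam Q n v) (l : Fin k)
    {T : ℕ} {δ : ℝ} (hδ : 0 < δ)
    (hQ : ∀ v ∈ V, (∀ t, T ≤ t → δ ≤ Q v l (t + 1) - Q v l t) ∨
      (∀ t, T ≤ t → Q v l (t + 1) - Q v l t ≤ -δ)) {F H : J → X → ℝ} {W : (Fin k → ℕ) → X → ℝ} {r s : G} {R : ℝ}
    (hsr : ℓ s ≤ ℓ r) (hR : ℓ r - ℓ s ≤ R) (hR0 : 0 ≤ R)
    (hF : ∀ w ∈ V, Measurable[cm mA Φ r] (F w) ∧ ∀ x, |F w x| ≤ 1)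
    (hH : ∀ v ∈ V, CE μ (cm mA Φ s) (F v) (H v))
    (hW : ∀ n, Measurable[mY] (W n) ∧ ∀ x, |W n x| ≤ 1)
    {L : ℕ} (hL : 0 < L) (hβ : R ≤ L * δ) {η : ℝ} (hη : 0 < η) :
    ∀ᵐ x ∂μ, ∀ᶠ M : ℕ in atTop, ∀ n ∈ bxs (fun _ : Fin k => M),
      |∑ t ∈ Finset.range M, ∑ v ∈ V, DD V Φ ℓ R F H (W (Function.update n l t))
        (q (Function.update n l t)) v x| ≤ η * M := by
  set η' : ℝ := η / 2 / (V.card + 1) with hη'
  have hη'0 : 0 < η' := by positivity
  set κ : ℝ := (η' / (2 * L)) ^ 2 / 2 with hκ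
  have hL' : (0 : ℝ) < L := by exact_mod_cast hL
  have hκ0 : 0 < κ := by positivity
  let bad : ℕ → Set X := fun M => ⋃ n ∈ bxs (fun _ : Fin k => M), ⋃ v ∈ V,
    {x | η' * M + 2 * T ≤ |∑ t ∈ Finset.range M, DD V Φ ℓ R F H (W (Function.update n l t))
      (q (Function.update n l t)) v x|}
  have hbad : ∀ M : ℕ, 0 < M → μ.real (bad M) ≤
      ((M : ℝ) ^ k * Real.exp (-κ) ^ M) * (V.card * (L * 2)) := by
    intro M hM
    have hM' : (0 : ℝ) < M := by exact_mod_cast hM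
    refine (measureReal_biUnion_finset_le _ _).trans ?_
    have h1 : ∀ n ∈ bxs (fun _ : Fin k => M), μ.real (⋃ v ∈ V,
        {x | η' * M + 2 * T ≤ |∑ t ∈ Finset.range M, DD V Φ ℓ R F H (W (Function.update n l t))
          (q (Function.update n l t)) v x|}) ≤
        V.card * (L * (2 * Real.exp (-κ) ^ M)) := by
      intro n _
      refine (measureReal_biUnion_finset_le _ _).trans ?_
      rw [← nsmul_eq_mul, ← Finset.sum_const]
      refine Finset.sum_le_sum fun v hv => ?_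
      have hp : ∀ m : ℕ, ℓ (q (Function.update n l m) v) =
          (lam v + ∑ j ∈ Finset.univ.erase l, Q v j (n j)) + Q v l m := by
        intro m
        rw [hq, lev_update]
      have h2 := line_bound hFl hA hY hv (p := fun m => q (Function.update n l m)) hp
        (W := fun t => W (Function.update n l t)) hsr hR hR0 hF (hH v hv)
        (fun t => hW _) hδ (hQ v hv) hL hβ hM (t := η' * M) (by positivity)
      refine h2.trans (le_of_eq ?_)
      congr 2
      rw [← Real.exp_nat_mul]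
      congr 1
      rw [hκ]
      field_simp
    refine (Finset.sum_le_sum h1).trans (le_of_eq ?_)
    rw [Finset.sum_const, nsmul_eq_mul, card_bxs]
    unfold vol
    rw [Finset.prod_const, Finset.card_univ, Fintype.card_fin]
    ring
  have hsummable : Summable fun M : ℕ => ((M : ℝ) ^ k * Real.exp (-κ) ^ M) *
      (V.card * (L * 2)) := by
    refine Summable.mul_right _ ?_
    refine summable_pow_mul_geometric_of_norm_lt_one k ?_
    rw [Real.norm_eq_abs, abs_of_pos (Real.exp_pos _), Real.exp_lt_one_iff]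
    linarith
  have hfin : ∑' M, μ (bad (M + 1)) ≠ ⊤ := by
    have h3 : ∀ M, μ (bad (M + 1)) ≤ ENNReal.ofReal ((((M + 1 : ℕ) : ℝ) ^ k *
        Real.exp (-κ) ^ (M + 1)) * (V.card * (L * 2))) := by
      intro M
      have h4 := hbad (M + 1) M.succ_pos
      rw [measureReal_def] at h4
      rw [← ENNReal.ofReal_toReal (measure_ne_top μ (bad (M + 1)))]
      exact ENNReal.ofReal_le_ofReal h4
    refine ne_top_of_le_ne_top ?_ (ENNReal.tsum_le_tsum h3)
    exact ((summable_nat_add_iff 1).2 hsummable).tsum_ofReal_ne_top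
  filter_upwards [ae_eventually_notMem hfin] with x hx
  obtain ⟨M₀, hM₀⟩ := eventually_atTop.1 hx
  obtain ⟨M₁, hM₁⟩ := exists_nat_gt (2 * T * (V.card : ℝ) / (η / 2))
  refine eventually_atTop.2 ⟨M₀ + M₁ + 1, fun M' hM' => ?_⟩
  obtain ⟨M, rfl⟩ : ∃ M, M' = M + 1 := ⟨M' - 1, by omega⟩
  have hM := hM₀ M (by omega)
  intro n hn
  by_contra hcon
  rw [not_le] at hcon
  apply hM
  have h5 : ∃ v ∈ V, η' * ((M + 1 : ℕ) : ℝ) + 2 * T ≤ |∑ t ∈ Finset.range (M + 1),
      DD V Φ ℓ R F H (W (Function.update n l t)) (q (Function.update n l t)) v x| := by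
    by_contra hcon2
    push Not at hcon2
    rw [Finset.sum_comm] at hcon
    have h6 := Finset.abs_sum_le_sum_abs (fun v => ∑ t ∈ Finset.range (M + 1),
      DD V Φ ℓ R F H (W (Function.update n l t)) (q (Function.update n l t)) v x) V
    have h7 : ∑ v ∈ V, |∑ t ∈ Finset.range (M + 1),
        DD V Φ ℓ R F H (W (Function.update n l t)) (q (Function.update n l t)) v x| ≤
        V.card * (η' * ((M + 1 : ℕ) : ℝ) + 2 * T) := by
      rw [← nsmul_eq_mul, ← Finset.sum_const]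
      exact Finset.sum_le_sum fun v hv => (hcon2 v hv).le
    have h8 : (V.card : ℝ) * (η' * ((M + 1 : ℕ) : ℝ)) ≤ η / 2 * ((M + 1 : ℕ) : ℝ) := by
      rw [← mul_assoc]
      refine mul_le_mul_of_nonneg_right ?_ (by positivity)
      rw [hη', mul_div_assoc', div_le_iff₀ (by positivity)]
      nlinarith
    have h9 : (V.card : ℝ) * (2 * T) ≤ η / 2 * ((M + 1 : ℕ) : ℝ) := by
      rw [div_lt_iff₀ (by positivity)] at hM₁
      have h10 : (M₁ : ℝ) ≤ ((M + 1 : ℕ) : ℝ) := by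
        exact_mod_cast (by omega : M₁ ≤ M + 1)
      nlinarith
    linarith
  obtain ⟨v, hv, hle⟩ := h5
  exact Set.mem_biUnion hn (Set.mem_biUnion hv hle)


variable [Fintype J] {k : ℕ}

theorem bound_ae (hk : 0 < k) (hFl : Flow μ Φ) (hA : Filt mX mA Φ ℓ) (hY : Base mY mA Φ)
    {S : Finset J} {q : (Fin k → ℕ) → J → G} {lam : J → ℝ} {Q : J → Fin k → ℕ → ℝ}
    (hq : ∀ n v, ℓ (q n v) = lev lam Q n v)
    (h1 : ∀ v ∈ S, ∀ l, ¬ Steep (Q v l) → ∀ n t, q (Function.update n l t) v = q n v)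
    (h2 : ∀ l, ∃ v ∈ S, Steep (Q v l))
    {F H : J → X → ℝ} {r s : G} {R : ℝ} (hsr : ℓ s ≤ ℓ r) (hR : ℓ r - ℓ s ≤ R) (hR0 : 0 < R)
    (hF : ∀ v ∈ S, Measurable[cm mA Φ r] (F v)) (hF1 : ∀ v x, |F v x| ≤ 1)
    (hFY : ∀ v ∉ S, Measurable[mY] (F v)) (hH : ∀ v ∈ S, CE μ (cm mA Φ s) (F v) (H v))
    {η : ℝ} (hη : 0 < η) :
    ∀ᵐ x ∂μ, ∀ᶠ N : Fin k → ℕ in atTop,
      |bx k N fun n => ∏ v, F v (Φ (q n v) x)| ≤
        η + bx k N fun n => errb Φ ℓ R H S (q n) x := by
  classical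
  have : Nonempty (Fin k) := ⟨⟨0, hk⟩⟩
  have hT' : ∀ (v : J) (l : Fin k), ∃ (T : ℕ) (δ : ℝ), 0 < δ ∧ (Steep (Q v l) →
      ((∀ t, T ≤ t → δ ≤ Q v l (t + 1) - Q v l t) ∨
        (∀ t, T ≤ t → Q v l (t + 1) - Q v l t ≤ -δ))) := by
    intro v l
    by_cases h : Steep (Q v l)
    · obtain ⟨T, δ, hδ, h'⟩ := h
      exact ⟨T, δ, hδ, fun _ => h'⟩
    · exact ⟨0, 1, one_pos, fun h' => absurd h' h⟩
  choose T₀ δ₀ hδ₀ hT₀ using hT'
  obtain ⟨T, hT⟩ : ∃ T : ℕ, ∀ v l, T₀ v l ≤ T :=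
    ⟨∑ v, ∑ l, T₀ v l, fun v l => (Finset.single_le_sum (f := fun l => T₀ v l)
      (fun _ _ => Nat.zero_le _) (Finset.mem_univ l)).trans
      (Finset.single_le_sum (f := fun v => ∑ l, T₀ v l)
      (fun _ _ => Nat.zero_le _) (Finset.mem_univ v))⟩
  obtain ⟨δ, hδ, hδle⟩ : ∃ δ : ℝ, 0 < δ ∧ ∀ v l, δ ≤ δ₀ v l := by
    have h3 : ∀ᶠ δ : ℝ in 𝓝[>] 0, ∀ v l, δ ≤ δ₀ v l :=
      eventually_all.2 fun v => eventually_all.2 fun l =>
        mem_nhdsWithin_of_mem_nhds (Iic_mem_nhds (hδ₀ v l))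
    obtain ⟨δ, h4, h5⟩ := (h3.and self_mem_nhdsWithin).exists
    exact ⟨δ, h5, h4⟩
  have hQ : ∀ v l, Steep (Q v l) → ((∀ t, T ≤ t → δ ≤ Q v l (t + 1) - Q v l t) ∨
      (∀ t, T ≤ t → Q v l (t + 1) - Q v l t ≤ -δ)) := by
    intro v l h
    rcases hT₀ v l h with h' | h'
    · exact Or.inl fun t ht => (hδle v l).trans (h' t ((hT v l).trans ht))
    · exact Or.inr fun t ht => (h' t ((hT v l).trans ht)).trans (neg_le_neg (hδle v l))
  obtain ⟨L, hL, hLβ⟩ : ∃ L : ℕ, 0 < L ∧ R ≤ L * δ := by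
    have h4 : Tendsto (fun L : ℕ => (L : ℝ) * δ) atTop atTop :=
      tendsto_natCast_atTop_atTop.atTop_mul_const hδ
    obtain ⟨L, hL1, hL2⟩ := ((h4.eventually_ge_atTop R).and (eventually_gt_atTop 0)).exists
    exact ⟨L, hL2, hL1⟩
  let V : Fin k → Finset J := fun l => S.filter fun v => Steep (Q v l)
  have hVS : ∀ l, V l ⊆ S := fun l => Finset.filter_subset _ _
  let W : (Fin k → ℕ) → X → ℝ := fun n x => ∏ v ∈ Sᶜ, F v (Φ (q n v) x)
  have hW : ∀ n, Measurable[mY] (W n) ∧ ∀ x, |W n x| ≤ 1 := by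
    intro n
    refine ⟨Finset.measurable_fun_prod _ fun v hv => ?_, fun x =>
      prod_abs_le (fun w _ => hF1 w) _ x⟩
    exact (hFY v (Finset.mem_compl.1 hv)).comp (hY.inv _)
  have hlines : ∀ᵐ x ∂μ, ∀ l : Fin k, ∀ᶠ M : ℕ in atTop, ∀ n ∈ bxs (fun _ : Fin k => M),
      |∑ t ∈ Finset.range M, ∑ v ∈ V l, DD (V l) Φ ℓ R F H (W (Function.update n l t))
        (q (Function.update n l t)) v x| ≤ η * M := by
    rw [ae_all_iff]
    intro l
    exact lines_ae hFl hA hY hq l hδ (fun v hv => hQ v l (Finset.mem_filter.1 hv).2) hsr hR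
      hR0.le (fun w hw => ⟨hF w (hVS l hw), hF1 w⟩) (fun v hv => hH v (hVS l hv)) hW hL
      hLβ hη
  filter_upwards [hlines] with x hx
  obtain ⟨M₀, hM₀⟩ := eventually_atTop.1 (eventually_all.2 hx)
  refine eventually_atTop.2 ⟨fun _ => max M₀ 1, fun N hN => ?_⟩
  have hN1 : ∀ j, 1 ≤ N j := fun j => (le_max_right _ _).trans (hN j)
  obtain ⟨l, hl⟩ := Finite.exists_max N
  have hNl : M₀ ≤ N l := (le_max_left _ _).trans (hN l)
  have hNlpos : (0 : ℝ) < N l := by
    have := hN1 l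
    positivity
  have hVne : (V l).Nonempty := by
    obtain ⟨v, hv, h⟩ := h2 l
    exact ⟨v, Finset.mem_filter.2 ⟨hv, h⟩⟩
  -- factorisation
  have hfac : ∀ n : Fin k → ℕ, ∏ v, F v (Φ (q n v) x) =
      (∏ v ∈ S.filter (fun v => ¬ Steep (Q v l)), F v (Φ (q n v) x)) *
        ((∏ v ∈ V l, F v (Φ (q n v) x)) * W n x) := by
    intro n
    show _ = _ * (_ * ∏ v ∈ Sᶜ, F v (Φ (q n v) x))
    rw [← Finset.prod_mul_prod_compl S, ← Finset.prod_filter_mul_prod_filter_not S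
      (fun v => Steep (Q v l))]
    ring
  have hinv : ∀ (n : Fin k → ℕ) (t : ℕ),
      ∏ v ∈ S.filter (fun v => ¬ Steep (Q v l)), F v (Φ (q (Function.update n l t) v) x) =
      ∏ v ∈ S.filter (fun v => ¬ Steep (Q v l)), F v (Φ (q n v) x) := by
    intro n t
    refine Finset.prod_congr rfl fun v hv => ?_
    rw [Finset.mem_filter] at hv
    rw [h1 v hv.1 l hv.2 n t]
  have hline : ∀ n ∈ bxs N, |(N l : ℝ)⁻¹ * ∑ t ∈ Finset.range (N l),
      ∏ v, F v (Φ (q (Function.update n l t) v) x)| ≤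
      η + (N l : ℝ)⁻¹ * ∑ t ∈ Finset.range (N l),
        errb Φ ℓ R H S (q (Function.update n l t)) x := by
    intro n hn
    have hn' : n ∈ bxs (fun _ : Fin k => N l) := bxs_mono hl hn
    have e1 : ∑ t ∈ Finset.range (N l), ∏ v, F v (Φ (q (Function.update n l t) v) x) =
        (∏ v ∈ S.filter (fun v => ¬ Steep (Q v l)), F v (Φ (q n v) x)) *
        ∑ t ∈ Finset.range (N l),
          ((∏ v ∈ V l, F v (Φ (q (Function.update n l t) v) x)) *
            W (Function.update n l t) x) := by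
      rw [Finset.mul_sum]
      refine Finset.sum_congr rfl fun t _ => ?_
      rw [hfac, hinv]
    rw [e1, abs_mul, abs_mul, abs_of_pos (inv_pos.2 hNlpos)]
    have hK := prod_abs_le (Φ := Φ) (V := S.filter (fun v => ¬ Steep (Q v l))) (F := F)
      (fun w _ => hF1 w) (q n) x
    set K := ∏ v ∈ S.filter (fun v => ¬ Steep (Q v l)), F v (Φ (q n v) x) with hKdef
    have e2 : |∑ t ∈ Finset.range (N l),
          ((∏ v ∈ V l, F v (Φ (q (Function.update n l t) v) x)) *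
            W (Function.update n l t) x)| ≤ η * N l + ∑ t ∈ Finset.range (N l),
        errb Φ ℓ R H S (q (Function.update n l t)) x := by
      have e3 : ∑ t ∈ Finset.range (N l),
          ((∏ v ∈ V l, F v (Φ (q (Function.update n l t) v) x)) *
            W (Function.update n l t) x) =
          ∑ t ∈ Finset.range (N l), ∑ v ∈ V l, DD (V l) Φ ℓ R F H (W (Function.update n l t))
            (q (Function.update n l t)) v x +
          ∑ t ∈ Finset.range (N l), ((∏ v ∈ V l, F v (Φ (q (Function.update n l t) v) x)) *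
            W (Function.update n l t) x - ∑ v ∈ V l, DD (V l) Φ ℓ R F H
              (W (Function.update n l t)) (q (Function.update n l t)) v x) := by
        rw [← Finset.sum_add_distrib]
        refine Finset.sum_congr rfl fun t _ => ?_
        ring
      rw [e3]
      refine (abs_add_le _ _).trans (add_le_add (hM₀ _ hNl l n hn') ?_)
      refine (Finset.abs_sum_le_sum_abs _ _).trans (Finset.sum_le_sum fun t _ => ?_)
      refine (pointwise hVne hR0 (fun w _ => hF1 w) (hW _).2 _ x).trans ?_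
      exact errb_mono (Φ := Φ) (ℓ := ℓ) R H (hVS l) _ x
    calc (N l : ℝ)⁻¹ * (|K| * |∑ t ∈ Finset.range (N l),
          ((∏ v ∈ V l, F v (Φ (q (Function.update n l t) v) x)) *
            W (Function.update n l t) x)|) ≤
          (N l : ℝ)⁻¹ * (1 * (η * N l + ∑ t ∈ Finset.range (N l),
            errb Φ ℓ R H S (q (Function.update n l t)) x)) := by
          refine mul_le_mul_of_nonneg_left ?_ (inv_pos.2 hNlpos).le
          exact mul_le_mul hK e2 (abs_nonneg _) zero_le_one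
      _ = _ := by
          field_simp
  rw [bx_slice hN1 l]
  refine bx_abs.trans ((bx_mono_of hline).trans ?_)
  rw [bx_add, ← bx_slice hN1 l (fun n => errb Φ ℓ R H S (q n) x)]
  exact add_le_add (bx_const_le hη.le) le_rfl

/-- **Convergence to zero.** -/
theorem box_zero (hk : 0 < k) (hFl : Flow μ Φ) (hA : Filt mX mA Φ ℓ) (hY : Base mY mA Φ)
    {S : Finset J} {q : (Fin k → ℕ) → J → G} {lam : J → ℝ} {Q : J → Fin k → ℕ → ℝ}
    (hq : ∀ n v, ℓ (q n v) = lev lam Q n v)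
    (h1 : ∀ v ∈ S, ∀ l, ¬ Steep (Q v l) → ∀ n t, q (Function.update n l t) v = q n v)
    (h2 : ∀ l, ∃ v ∈ S, Steep (Q v l))
    (h3 : ∀ v ∈ S, ∀ w ∈ S, v ≠ w → ∃ l, Steep fun t => Q v l t - Q w l t)
    (hgood : ∀ v ∈ S, Good1 μ fun n => (Φ (q n v) : X → X))
    {F : J → X → ℝ} {r : G}
    (hF : ∀ v ∈ S, Measurable[cm mA Φ r] (F v)) (hF1 : ∀ v x, |F v x| ≤ 1)
    (hFY : ∀ v ∉ S, Measurable[mY] (F v))
    (hsm : ∀ ε : ℝ, 0 < ε → ∃ s : G, ℓ s ≤ ℓ r ∧ ∃ H : J → X → ℝ,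
      (∀ v ∈ S, CE μ (cm mA Φ s) (F v) (H v)) ∧ ∀ v ∈ S, ∫ x, |H v x| ∂μ ≤ ε) :
    ∀ᵐ x ∂μ, Tendsto (fun N => bx k N fun n => ∏ v, F v (Φ (q n v) x)) atTop (𝓝 0) := by
  classical
  have hbad : ∀ δ : ℝ, 0 < δ → ∀ᵐ x ∂μ, ∀ᶠ N : Fin k → ℕ in atTop,
      |bx k N fun n => ∏ v, F v (Φ (q n v) x)| ≤ δ := by
    intro δ hδ
    rw [ae_iff, ← nonpos_iff_eq_zero]
    apply ENNReal.le_of_forall_pos_le_add
    intro ε hε _
    rw [zero_add]
    have hε' : (0 : ℝ) < ε := by exact_mod_cast hε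
    obtain ⟨s, hsr, H, hH, hHs⟩ := hsm (ε * (δ / 4) / (S.card + 1)) (by positivity)
    set R : ℝ := max (ℓ r - ℓ s) 1 with hRdef
    have hR : ℓ r - ℓ s ≤ R := le_max_left _ _
    have hR0 : 0 < R := lt_of_lt_of_le one_pos (le_max_right _ _)
    have hHm : ∀ v ∈ S, Measurable (H v) := fun v hv => (hH v hv).1.mono (cm_le hFl hA s) le_rfl
    let E : J → X → ℝ := fun v x => limUnder atTop
      (fun N => bx k N fun n => |H v (Φ (q n v) x)|)
    have hE : ∀ v ∈ S, ∀ᵐ x ∂μ, Tendsto (fun N => bx k N fun n => |H v (Φ (q n v) x)|)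
        atTop (𝓝 (E v x)) := by
      intro v hv
      have h4 := hgood v hv (fun x => |H v x|)
        (hHm v hv).abs ⟨1, fun x => by rw [abs_abs]; exact (hH v hv).2.1 x⟩
      filter_upwards [h4] with x hx
      exact tendsto_nhds_limUnder hx
    have hEint : ∀ v ∈ S, 0 ≤ᵐ[μ] E v ∧ Integrable (E v) μ ∧
        ∫ x, E v x ∂μ ≤ ∫ x, |H v x| ∂μ := by
      intro v hv
      exact int_lim_le' (fun n => hFl (q n v)) (hHm v hv).abs (zero_le_one (α := ℝ))
        (fun x => by rw [abs_abs]; exact (hH v hv).2.1 x) (fun x => abs_nonneg _) (hE v hv)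
    let T : X → ℝ := fun x => ∑ v ∈ S, E v x
    have hT0 : 0 ≤ᵐ[μ] T := by
      have : ∀ᵐ x ∂μ, ∀ v ∈ S, 0 ≤ E v x :=
        (ae_ball_iff S.countable_toSet).2 fun v hv => (hEint v hv).1
      filter_upwards [this] with x hx
      exact Finset.sum_nonneg hx
    have hTi : Integrable T μ := integrable_finsetSum _ fun v hv => (hEint v hv).2.1
    have hTint : ∫ x, T x ∂μ ≤ ε * (δ / 4) := by
      have : ∫ x, T x ∂μ = ∑ v ∈ S, ∫ x, E v x ∂μ :=
        integral_finsetSum _ fun v hv => (hEint v hv).2.1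
      rw [this]
      refine (Finset.sum_le_sum fun v hv => ((hEint v hv).2.2.trans (hHs v hv))).trans ?_
      rw [Finset.sum_const, nsmul_eq_mul, mul_div_assoc', div_le_iff₀ (by positivity)]
      have : 0 ≤ ε * (δ / 4) := by positivity
      nlinarith
    have hmark := mul_meas_ge_le_integral_of_nonneg hT0 hTi (δ / 4)
    have hmark' : μ.real {x | δ / 4 ≤ T x} ≤ ε := by
      have h5 : δ / 4 * μ.real {x | δ / 4 ≤ T x} ≤ δ / 4 * ε := by
        refine (hmark.trans hTint).trans ?_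
        rw [mul_comm]
      exact le_of_mul_le_mul_left h5 (by positivity)
    have hmain := bound_ae (η := δ / 4) hk hFl hA hY hq h1 h2 hsr hR hR0 hF hF1 hFY hH
      (by positivity)
    have hEall : ∀ᵐ x ∂μ, ∀ v ∈ S, Tendsto (fun N => bx k N fun n =>
        |H v (Φ (q n v) x)|) atTop (𝓝 (E v x)) :=
      (ae_ball_iff S.countable_toSet).2 fun v hv => hE v hv
    have hclose : Tendsto (fun N => ∑ v ∈ S, ∑ w ∈ S.erase v, bx k N
        (fun n => if |ℓ (q n v) - ℓ (q n w)| < R then (1 : ℝ) else 0))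
        atTop (𝓝 0) := by
      simp only [hq]
      have h5 : Tendsto (fun N => ∑ v ∈ S, ∑ w ∈ S.erase v, bx k N
          (fun n => if |lev lam Q n v - lev lam Q n w| < R then (1 : ℝ) else 0))
          atTop (𝓝 (∑ v ∈ S, ∑ _w ∈ S.erase v, (0 : ℝ))) := by
        refine tendsto_finsetSum _ fun v hv => tendsto_finsetSum _ fun w hw => ?_
        obtain ⟨l, hl⟩ := h3 v hv w (Finset.mem_of_mem_erase hw) (Finset.ne_of_mem_erase hw).symm
        exact tendsto_close hR0 lam Q hl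
      rw [Finset.sum_eq_zero fun v _ => Finset.sum_const_zero] at h5
      exact h5
    have hsub : ∀ᵐ x ∂μ, x ∈ {x | ¬ ∀ᶠ N : Fin k → ℕ in atTop,
        |bx k N fun n => ∏ v, F v (Φ (q n v) x)| ≤ δ} → x ∈ {x | δ / 4 ≤ T x} := by
      filter_upwards [hmain, hEall] with x hx1 hx2 hx3
      show δ / 4 ≤ T x
      by_contra hcon
      rw [not_le] at hcon
      apply hx3
      have h6 : Tendsto (fun N => ∑ v ∈ S, bx k N fun n => |H v (Φ (q n v) x)|)
          atTop (𝓝 (T x)) := tendsto_finsetSum _ fun v hv => hx2 v hv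
      have h7 := (tendsto_order.mp h6).2 _ hcon
      have h8 := (tendsto_order.mp hclose).2 (δ / 4) (by positivity)
      filter_upwards [hx1, h7, h8] with N hN1 hN2 hN3
      refine hN1.trans ?_
      have e : (bx k N fun n => errb Φ ℓ R H S (q n) x) =
          ∑ v ∈ S, (bx k N fun n => |H v (Φ (q n v) x)|) +
          ∑ v ∈ S, ∑ w ∈ S.erase v, bx k N
            (fun n => if |ℓ (q n v) - ℓ (q n w)| < R then (1 : ℝ) else 0) := by
        unfold errb
        rw [bx_add, bx_sum, bx_sum]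
        congr 1
        refine Finset.sum_congr rfl fun v _ => ?_
        rw [bx_sum]
      rw [e]
      linarith
    have h10 : μ {x | ¬ ∀ᶠ N : Fin k → ℕ in atTop,
        |bx k N fun n => ∏ v, F v (Φ (q n v) x)| ≤ δ} ≤ μ {x | δ / 4 ≤ T x} :=
      measure_mono_ae hsub
    refine h10.trans ?_
    have h9 : μ {x | δ / 4 ≤ T x} = ENNReal.ofReal (μ.real {x | δ / 4 ≤ T x}) := by
      rw [measureReal_def, ENNReal.ofReal_toReal (measure_ne_top _ _)]
    rw [h9]
    calc ENNReal.ofReal (μ.real {x | δ / 4 ≤ T x}) ≤ ENNReal.ofReal (ε : ℝ) :=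
          ENNReal.ofReal_le_ofReal hmark'
      _ = ε := ENNReal.ofReal_coe_nnreal
  have hall := ae_all_iff.mpr fun i : ℕ => hbad (1 / ((i : ℝ) + 1)) (by positivity)
  filter_upwards [hall] with x hx
  rw [Metric.tendsto_nhds]
  intro ε hε
  obtain ⟨i, hi⟩ := exists_nat_one_div_lt hε
  filter_upwards [hx i] with N hN
  rw [Real.dist_eq, sub_zero]
  exact hN.trans_lt hi


end Pool.Agent.Zk89.KC
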