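import Pool.Agent.Zk89.KC.Fin

/-!
# Dense classes, one parameter; extensions for general groups
-/

set_option autoImplicit false
set_option linter.unusedSectionVars false
set_option maxHeartbeats 400000

open MeasureTheory Filter Topology Polynomial
open scoped ENNReal

noncomputable section

namespace Pool.Agent.Zk89.KC

open Pool.Agent.W761.Box (bx bxc BM Good1 bxc_add bxc_sub bxc_mul Cv Cv_add Cv_smul Cv_closed)
open Pool.Agent.TH784.KE hiding count_close lines_ae bound_ae tendsto_close box_zero orth_line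
  line_bound zero_real zero_complex
open Pool.Agent.W761.Gauss (IsFactor BM_of_memLp)
open Pool.Agent.Zk89.BT (G1)

theorem box_of_one {a : (Fin 1 → ℕ) → ℂ} {L : ℂ}
    (h : Tendsto (fun N : ℕ => (N : ℂ)⁻¹ * ∑ n ∈ Finset.range N, a (fun _ => n)) atTop (𝓝 L)) :
    Tendsto (fun N => bxc 1 N a) atTop (𝓝 L) := by
  refine (h.comp tendsto_eval0).congr fun N => ?_
  have hN : N = fun _ => N 0 := by
    funext i
    rw [Fin.fin_one_eq_zero i]
  rw [hN, Pool.Agent.Zk89.MT.bxc_one, Function.comp_apply]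

theorem one_of_box {a : (Fin 1 → ℕ) → ℂ} {L : ℂ}
    (h : Tendsto (fun N => bxc 1 N a) atTop (𝓝 L)) :
    Tendsto (fun N : ℕ => (N : ℂ)⁻¹ * ∑ n ∈ Finset.range N, a (fun _ => n)) atTop (𝓝 L) := by
  refine (h.comp tendsto_one).congr fun N => ?_
  rw [Function.comp_apply, Pool.Agent.Zk89.MT.bxc_one]

/-- a family which is good in one parameter is good for boxes in one dimension -/
theorem good1_of {X : Type*} [MeasurableSpace X] {μ : Measure X} {s : ℕ → X → X}
    (h : G1 μ s) : Good1 μ (fun m : Fin 1 → ℕ => s (m 0)) := by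
  intro H hH hb
  refine (h H hH hb).mono fun x hx => ?_
  obtain ⟨L, hL⟩ := hx
  refine ⟨L, (hL.comp tendsto_eval0).congr fun N => ?_⟩
  have hN : N = fun _ => N 0 := by
    funext i
    rw [Fin.fin_one_eq_zero i]
  rw [hN, bx_one]
  rfl

theorem l1_of_l2 {X : Type} [MeasurableSpace X] {μ : Measure X} [IsProbabilityMeasure μ]
    {H : X → ℝ} {u : X → ℂ} (hH : Measurable H) {C₀ : ℝ} (hHb : ∀ x, |H x| ≤ C₀) (hu : BM u)
    {δ : ℝ} (hδ : 0 ≤ δ) (hi : ∫ x, ‖(H x : ℂ) - u x‖ ^ 2 ∂μ ≤ δ ^ 2) :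
    Integrable (fun x => ‖(H x : ℂ) - u x‖) μ ∧ ∫ x, ‖(H x : ℂ) - u x‖ ∂μ ≤ δ := by
  obtain ⟨hum, Cu, hub⟩ := hu
  have hm : Measurable fun x => ‖(H x : ℂ) - u x‖ :=
    ((Complex.measurable_ofReal.comp hH).sub hum).norm
  have hbd : ∀ x, ‖(H x : ℂ) - u x‖ ≤ C₀ + Cu := fun x =>
    (norm_sub_le _ _).trans (add_le_add (by
      rw [Complex.norm_real]
      exact hHb x) (hub x))
  have hint : Integrable (fun x => ‖(H x : ℂ) - u x‖) μ :=
    Integrable.of_bound hm.aestronglyMeasurable (C₀ + Cu)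
      (Eventually.of_forall fun x => by rw [norm_norm]; exact hbd x)
  have hint2 : Integrable (fun x => ‖(H x : ℂ) - u x‖ ^ 2) μ := by
    refine Integrable.of_bound (hm.pow_const 2).aestronglyMeasurable ((C₀ + Cu) ^ 2)
      (Eventually.of_forall fun x => ?_)
    rw [norm_pow, norm_norm]
    exact pow_le_pow_left₀ (norm_nonneg _) (hbd x) 2
  refine ⟨hint, ?_⟩
  have h0 : 0 ≤ ∫ x, ‖(H x : ℂ) - u x‖ ∂μ := integral_nonneg fun x => norm_nonneg _
  obtain ⟨c, hcdef⟩ : ∃ c, c = ∫ x, ‖(H x : ℂ) - u x‖ ∂μ := ⟨_, rfl⟩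
  have h1 : 0 ≤ ∫ x, (‖(H x : ℂ) - u x‖ - c) ^ 2 ∂μ :=
    integral_nonneg fun x => sq_nonneg _
  have e : ∀ x, (‖(H x : ℂ) - u x‖ - c) ^ 2 =
      ‖(H x : ℂ) - u x‖ ^ 2 - 2 * c * ‖(H x : ℂ) - u x‖ + c ^ 2 := fun x => by ring
  simp only [e] at h1
  have e2 : ∫ x, (‖(H x : ℂ) - u x‖ ^ 2 - 2 * c * ‖(H x : ℂ) - u x‖ + c ^ 2) ∂μ =
      ∫ x, ‖(H x : ℂ) - u x‖ ^ 2 ∂μ - 2 * c * c + c ^ 2 := by
    have i1 : Integrable (fun x => ‖(H x : ℂ) - u x‖ ^ 2 - 2 * c * ‖(H x : ℂ) - u x‖) μ :=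
      hint2.sub (hint.const_mul (2 * c))
    rw [integral_add i1 (integrable_const _),
      integral_sub hint2 (hint.const_mul (2 * c)), integral_const_mul, ← hcdef]
    simp only [integral_const, probReal_univ, smul_eq_mul, one_mul]
  rw [e2] at h1
  rw [← hcdef] at h0 ⊢
  refine (pow_le_pow_iff_left₀ h0 hδ two_ne_zero).1 ?_
  nlinarith

/-- a class which is dense in `L²` is enough, given families which are good for one function -/
theorem cv_dense {X : Type} [MeasurableSpace X] {μ : Measure X} [IsProbabilityMeasure μ]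
    {n k : ℕ} {g : Fin n → (Fin k → ℕ) → X → X} (hgm : ∀ j m, MeasurePreserving (g j m) μ μ)
    (hgood : ∀ j, Good1 μ (g j)) {D : (X → ℂ) → Prop} (hD : ∀ v, D v → BM v)
    (happ : ∀ H : X → ℝ, Measurable H → (∃ C : ℝ, ∀ x, |H x| ≤ C) → ∀ ε : ℝ, 0 < ε →
      ∃ v : X → ℂ, D v ∧ ∫ x, ‖(H x : ℂ) - v x‖ ^ 2 ∂μ ≤ ε)
    (h : ∀ F : Fin n → X → ℂ, (∀ j, D (F j)) → Cv μ g F) (F : Fin n → X → ℂ)
    (hF : ∀ j, BM (F j)) : Cv μ g F := by
  classical
  have key : ∀ (B : Finset (Fin n)) (F : Fin n → X → ℂ), (∀ j, BM (F j)) →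
      (∀ j ∉ B, D (F j)) → Cv μ g F := by
    intro B
    induction B using Finset.induction_on with
    | empty => exact fun F _ hF2 => h F fun j => hF2 j (Finset.notMem_empty j)
    | insert v B hv ih =>
      intro F hF1 hF2
      have hup : ∀ u : X → ℂ, D u → Cv μ g (Function.update F v u) := by
        intro u hu
        apply ih
        · intro w
          by_cases hw : w = v
          · subst hw
            rw [Function.update_self]
            exact hD u hu
          · rw [Function.update_of_ne hw]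
            exact hF1 w
        · intro w hw
          by_cases hwv : w = v
          · subst hwv
            rw [Function.update_self]
            exact hu
          · rw [Function.update_of_ne hwv]
            exact hF2 w fun hmem => (Finset.mem_insert.1 hmem).elim hwv hw
      have hgoal : Cv μ g (Function.update F v (F v)) := by
        refine Cv_closed hgm hgood hF1 (hF1 v) fun ε hε => ?_
        obtain ⟨hFm, C₀, hC₀⟩ := hF1 v
        have hre : Measurable fun x => (F v x).re := Complex.measurable_re.comp hFm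
        have him : Measurable fun x => (F v x).im := Complex.measurable_im.comp hFm
        obtain ⟨v₁, hv₁, hi₁⟩ := happ _ hre ⟨C₀, fun x => (Complex.abs_re_le_norm _).trans
          (hC₀ x)⟩ ((ε / 2) ^ 2) (by positivity)
        obtain ⟨v₂, hv₂, hi₂⟩ := happ _ him ⟨C₀, fun x => (Complex.abs_im_le_norm _).trans
          (hC₀ x)⟩ ((ε / 2) ^ 2) (by positivity)
        obtain ⟨hm₁, C₁, hb₁⟩ := hD v₁ hv₁
        obtain ⟨hm₂, C₂, hb₂⟩ := hD v₂ hv₂
        obtain ⟨j₁, l₁⟩ := l1_of_l2 (μ := μ) hre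
          (fun x => (Complex.abs_re_le_norm _).trans (hC₀ x))
          (hD v₁ hv₁) (by positivity) hi₁
        obtain ⟨j₂, l₂⟩ := l1_of_l2 (μ := μ) him
          (fun x => (Complex.abs_im_le_norm _).trans (hC₀ x))
          (hD v₂ hv₂) (by positivity) hi₂
        refine ⟨v₁ + Complex.I • v₂, ⟨hm₁.add (hm₂.const_smul _), C₁ + C₂, fun x => ?_⟩, ?_,
          Cv_add (hup v₁ hv₁) (Cv_smul _ (hup v₂ hv₂))⟩
        · refine (norm_add_le _ _).trans (add_le_add (hb₁ x) ?_)
          rw [Pi.smul_apply, smul_eq_mul, norm_mul, Complex.norm_I, one_mul]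
          exact hb₂ x
        · have hpt : ∀ x, ‖F v x - (v₁ + Complex.I • v₂) x‖ ≤
              ‖((F v x).re : ℂ) - v₁ x‖ + ‖((F v x).im : ℂ) - v₂ x‖ := by
            intro x
            have e : F v x - (v₁ + Complex.I • v₂) x =
                (((F v x).re : ℂ) - v₁ x) + Complex.I * (((F v x).im : ℂ) - v₂ x) := by
              rw [Pi.add_apply, Pi.smul_apply, smul_eq_mul]
              conv_lhs => rw [← Complex.re_add_im (F v x)]
              ring
            rw [e]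
            refine (norm_add_le _ _).trans ?_
            rw [norm_mul, Complex.norm_I, one_mul]
          refine (integral_mono_of_nonneg (Eventually.of_forall fun x => norm_nonneg _)
            (j₁.add j₂) (Eventually.of_forall hpt)).trans ?_
          rw [integral_add' j₁ j₂]
          linarith
      rwa [Function.update_eq_self] at hgoal
  exact key Finset.univ F hF fun j hj => absurd (Finset.mem_univ j) hj

theorem g1_dense {X : Type} [MeasurableSpace X] {μ : Measure X} [IsProbabilityMeasure μ]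
    {d : ℕ} {T : Fin d → Equiv.Perm X} (hc : ∀ i j, Commute (T i) (T j))
    (hmp : ∀ a : Fin d → ℤ, MeasurePreserving ((List.ofFn fun i => T i ^ a i).prod : X → X) μ μ)
    {D : (X → ℂ) → Prop} (hD : ∀ v, D v → BM v)
    (happ : ∀ H : X → ℝ, Measurable H → (∃ C : ℝ, ∀ x, |H x| ≤ C) → ∀ ε : ℝ, 0 < ε →
      ∃ v : X → ℂ, D v ∧ ∫ x, ‖(H x : ℂ) - v x‖ ^ 2 ∂μ ≤ ε)
    (h : Along μ T D) (P : Fin d → ℤ[X]) :
    G1 μ (fun m => ((List.ofFn fun i => T i ^ ((P i).eval (m : ℤ))).prod : X → X)) := by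
  refine Pool.Agent.Zk89.AP.g1_comm hc hmp P fun H hH hb ε hε => ?_
  obtain ⟨v, hv, hi⟩ := happ H hH hb ε hε
  refine ⟨v, hD v hv, hi, ?_⟩
  have h1 := h 1 (fun i _ => P i) (fun _ => v) fun _ => hv
  simp only [Fin.prod_univ_one] at h1
  exact h1

/-- **A dense class is enough**, one parameter, commuting transformations. -/
theorem along_dense {X : Type} [MeasurableSpace X] {μ : Measure X} [IsProbabilityMeasure μ]
    {d : ℕ} {T : Fin d → Equiv.Perm X} (hc : ∀ i j, Commute (T i) (T j))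
    (hmp : ∀ a : Fin d → ℤ, MeasurePreserving ((List.ofFn fun i => T i ^ a i).prod : X → X) μ μ)
    {D : (X → ℂ) → Prop} (hD : ∀ v, D v → BM v)
    (happ : ∀ H : X → ℝ, Measurable H → (∃ C : ℝ, ∀ x, |H x| ≤ C) → ∀ ε : ℝ, 0 < ε →
      ∃ v : X → ℂ, D v ∧ ∫ x, ‖(H x : ℂ) - v x‖ ^ 2 ∂μ ≤ ε)
    (h : Along μ T D) : Along μ T BM := by
  intro n P F hF
  have hgood : ∀ j, Good1 μ (fun m : Fin 1 → ℕ =>
      ((List.ofFn fun i => T i ^ ((P i j).eval ((m 0 : ℕ) : ℤ))).prod : X → X)) := by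
    intro j
    have h2 := g1_dense hc hmp hD happ h fun i => P i j
    have h3 := good1_of h2
    exact h3
  have h0 : ∀ F : Fin n → X → ℂ, (∀ j, D (F j)) → Cv μ (fun (j : Fin n) (m : Fin 1 → ℕ) =>
      ((List.ofFn fun i => T i ^ ((P i j).eval ((m 0 : ℕ) : ℤ))).prod : X → X)) F := by
    intro F hF
    refine (h n P F hF).mono fun x hx => ?_
    obtain ⟨L, hL⟩ := hx
    refine ⟨L, ?_⟩
    apply box_of_one
    exact hL
  have hm : ∀ (j : Fin n) (m : Fin 1 → ℕ), MeasurePreserving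
      ((List.ofFn fun i => T i ^ ((P i j).eval ((m 0 : ℕ) : ℤ))).prod : X → X) μ μ := by
    intro j m
    exact hmp fun i => (P i j).eval ((m 0 : ℕ) : ℤ)
  have h1 := cv_dense hm hgood hD happ h0 F hF
  refine h1.mono fun x hx => ?_
  obtain ⟨L, hL⟩ := hx
  refine ⟨L, ?_⟩
  have h2 := one_of_box hL
  exact h2

theorem along_box {X : Type} [MeasurableSpace X] {μ : Measure X} {d : ℕ}
    {T : Fin d → Equiv.Perm X} (h : Along μ T BM) {n : ℕ} (P : Fin d → Fin n → ℤ[X])
    (F : Fin n → X → ℂ) (hF : ∀ j, BM (F j)) :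
    ∀ᵐ x ∂μ, ∃ L : ℂ, Tendsto (fun N => bxc 1 N (fun m => ∏ j, F j
      ((List.ofFn fun i : Fin d => T i ^ (P i j).eval ((m 0 : ℕ) : ℤ)).prod x))) atTop (𝓝 L) := by
  refine (h n P F hF).mono fun x hx => ?_
  obtain ⟨L, hL⟩ := hx
  refine ⟨L, ?_⟩
  apply box_of_one
  exact hL

/-- passage to factors -/
theorem along_factor {X Y : Type} [MeasurableSpace X] {μ : Measure X} [IsProbabilityMeasure μ]
    [MeasurableSpace Y] {ν : Measure Y} {d : ℕ} {T : Fin d → Equiv.Perm X}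
    (hTm : ∀ i, MeasurePreserving (T i) μ μ)
    (hT' : ∀ i, MeasurePreserving ((T i)⁻¹ : Equiv.Perm X) μ μ)
    {R : Fin d → Equiv.Perm Y} (hRm : ∀ i, Measurable (R i).symm)
    (hR : ∀ i, MeasurePreserving (R i) ν ν) (hfac : IsFactor μ T ν R)
    (h : Along μ T BM) : Along ν R fun f => MemLp f ∞ ν := by
  intro n P f hf
  have h3 := Pool.Agent.TH784.AA.factor_gen hTm hT' hRm hR hfac
    (fun (m : Fin 1 → ℕ) i j => (P i j).eval ((m 0 : ℕ) : ℤ)) (along_box h P) hf
  refine h3.mono fun y hy => ?_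
  obtain ⟨L, hL⟩ := hy
  refine ⟨L, ?_⟩
  have h2 := one_of_box hL
  exact h2

theorem steep_of_ne {Q : ℝ[X]} (h : ∃ t t' : ℕ, Q.eval (t : ℝ) ≠ Q.eval (t' : ℝ)) :
    Steep fun t : ℕ => Q.eval (t : ℝ) := by
  apply steep_poly
  rw [Nat.pos_iff_ne_zero]
  intro h0
  obtain ⟨t, t', hne⟩ := h
  apply hne
  rw [eq_C_of_natDegree_eq_zero h0, eval_C, eval_C]

/-- **Part 5.** Any group, powers, all parameters. -/
theorem part5 {X G : Type} [Group G] {mA mY : MeasurableSpace X} [mX : MeasurableSpace X]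
    {μ : Measure X} [IsProbabilityMeasure μ] {Φ : G →* Equiv.Perm X} {ℓ : G → ℝ} {k n : ℕ}
    (hk : 0 < k) (hK : KExt μ mA mY Φ ℓ) (b : Fin n → G) (h : Fin n → Fin k → G)
    (P : Fin n → Fin k → ℤ[X])
    (hh0 : ∀ j l, ∃ t t' : ℕ, ℓ (h j l ^ (P j l).eval (t : ℤ)) ≠
      ℓ (h j l ^ (P j l).eval (t' : ℤ)))
    (hh : ∀ i j, i ≠ j → ∃ l, ∃ t t' : ℕ,
      ℓ (h i l ^ (P i l).eval (t : ℤ)) - ℓ (h j l ^ (P j l).eval (t : ℤ)) ≠
      ℓ (h i l ^ (P i l).eval (t' : ℤ)) - ℓ (h j l ^ (P j l).eval (t' : ℤ)))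
    {f : Fin n → X → ℂ} (hf : ∀ j, MemLp (f j) ∞ μ) :
    ∀ᵐ x ∂μ, Tendsto (fun M : Fin k → ℕ => (∏ j, (M j : ℂ))⁻¹ *
      ∑ m ∈ Fintype.piFinset (fun j => Finset.range (M j)),
        (∏ j, f j (Φ (b j * (List.ofFn fun l =>
            h j l ^ (P j l).eval ((m l : ℕ) : ℤ)).prod) x) -
          ∏ j, (μ[f j | mY]) (Φ (b j * (List.ofFn fun l =>
            h j l ^ (P j l).eval ((m l : ℕ) : ℤ)).prod) x))) atTop (𝓝 0) := by
  have hlev : ∀ (a : G) (Q : ℤ[X]) (t : ℕ), ℓ (a ^ Q.eval (t : ℤ)) =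
      (C (ℓ a) * Q.map (Int.castRingHom ℝ)).eval (t : ℝ) := by
    intro a Q t
    rw [zpow_ell hK.filt, eval_mul, eval_C, mul_comm, eval_natCast_map]
    rfl
  have hYX : mY ≤ mX := hK.base.le.trans hK.filt.le
  choose g hg hfg using fun j => BM_of_memLp (hf j)
  choose e he heY hee hfe using fun j => exists_cond (μ := μ) hYX (hg j)
  have hmain := char_box hk hK b (fun j l t => h j l ^ (P j l).eval (t : ℤ))
    (fun j l => by
      simp only [hlev]
      apply steep_of_ne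
      obtain ⟨t, t', hne⟩ := hh0 j l
      rw [hlev, hlev] at hne
      exact ⟨t, t', hne⟩)
    (fun i j hij => by
      obtain ⟨l, t, t', hne⟩ := hh i j hij
      refine ⟨l, ?_⟩
      simp only [hlev] at hne ⊢
      have := steep_of_ne (Q := C (ℓ (h i l)) * (P i l).map (Int.castRingHom ℝ) -
        C (ℓ (h j l)) * (P j l).map (Int.castRingHom ℝ)) ⟨t, t', by
          simpa only [eval_sub] using hne⟩
      simpa only [eval_sub] using this)
    (fun j => good_el hK.fl _ _ fun l => Pool.Agent.Zk89.BT.good_poly hK.fl (h j l) (P j l))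
    hg he heY hfe
  have h1 : ∀ᵐ x ∂μ, ∀ (m : Fin k → ℕ) (j : Fin n),
      f j (Φ (el (b j) (fun l t => h j l ^ (P j l).eval (t : ℤ)) m) x) =
        g j (Φ (el (b j) (fun l t => h j l ^ (P j l).eval (t : ℤ)) m) x) := by
    rw [ae_all_iff]
    intro m
    rw [ae_all_iff]
    intro j
    exact (hK.fl _).quasiMeasurePreserving.ae (hfg j)
  have h2 : ∀ᵐ x ∂μ, ∀ (m : Fin k → ℕ) (j : Fin n),
      (μ[f j | mY]) (Φ (el (b j) (fun l t => h j l ^ (P j l).eval (t : ℤ)) m) x) =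
        e j (Φ (el (b j) (fun l t => h j l ^ (P j l).eval (t : ℤ)) m) x) := by
    rw [ae_all_iff]
    intro m
    rw [ae_all_iff]
    intro j
    have h3 : μ[f j | mY] =ᵐ[μ] e j := (condExp_congr_ae (hfg j)).trans (hee j).symm
    exact (hK.fl _).quasiMeasurePreserving.ae h3
  filter_upwards [hmain, h1, h2] with x hx hx1 hx2
  refine hx.congr fun N => ?_
  unfold Pool.Agent.W761.Box.bxc
  congr 1
  refine Finset.sum_congr rfl fun m _ => ?_
  exact congrArg₂ (· - ·) (Finset.prod_congr rfl fun j _ => (hx1 m j).symm)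
    (Finset.prod_congr rfl fun j _ => (hx2 m j).symm)

/-- **Part 4.** A class which is dense in `L²` is enough, also for all factors. -/
theorem part4 {X Y : Type} [MeasurableSpace X] {μ : Measure X} [IsProbabilityMeasure μ]
    [MeasurableSpace Y] {ν : Measure Y} {d : ℕ} {T : Fin d → Equiv.Perm X}
    (hTm : ∀ i, MeasurePreserving (T i) μ μ) (hTs : ∀ i, Measurable (T i).symm)
    (hc : ∀ i j, Commute (T i) (T j)) {D : (X → ℂ) → Prop} (hD : ∀ v, D v → BM v)
    (happ : ∀ H : X → ℝ, Measurable H → (∃ C : ℝ, ∀ x, |H x| ≤ C) → ∀ ε : ℝ, 0 < ε →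
      ∃ v : X → ℂ, D v ∧ ∫ x, ‖(H x : ℂ) - v x‖ ^ 2 ∂μ ≤ ε)
    (h : Along μ T D)
    {R : Fin d → Equiv.Perm Y} (hRm : ∀ i, Measurable (R i).symm)
    (hR : ∀ i, MeasurePreserving (R i) ν ν) (hfac : IsFactor μ T ν R) :
    Along ν R fun f => MemLp f ∞ ν := by
  have hT' : ∀ i, MeasurePreserving ((T i)⁻¹ : Equiv.Perm X) μ μ := by
    intro i
    let e : X ≃ᵐ X := ⟨T i, (hTm i).measurable, hTs i⟩
    exact (hTm i).symm e
  exact along_factor hTm hT' hRm hR hfac (along_dense hc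
    (fun a => Pool.Agent.W761.Gauss.mp_prod hTm hT' a) hD happ h)

end Pool.Agent.Zk89.KC
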