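import Pool.Agent.Zk89.KC.Multi
import Pool.Agent.Zk89.AP.One
import Pool.Agent.TH784.KE.One

/-!
# One function along polynomials in a Kolmogorov extension
-/

set_option autoImplicit false
set_option linter.unusedSectionVars false

open MeasureTheory Filter Topology Polynomial

noncomputable section

namespace Pool.Agent.Zk89.KC

open Pool.Agent.TH784.KE hiding count_close lines_ae bound_ae tendsto_close box_zero orth_line
  line_bound zero_real zero_complex
open Pool.Agent.W761.Box (bx bxc BM Good1)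
open Pool.Agent.Zk89.BT (G1)

/-- real polynomials of positive degree are steep -/
theorem steep_poly {Q : ℝ[X]} (h : 0 < Q.natDegree) : Steep fun t : ℕ => Q.eval (t : ℝ) := by
  set D : ℝ[X] := Q.comp (X + C 1) - Q with hD
  have hDe : ∀ t : ℕ, D.eval (t : ℝ) = Q.eval ((t + 1 : ℕ) : ℝ) - Q.eval (t : ℝ) := by
    intro t
    rw [hD, eval_sub, eval_comp, eval_add, eval_X, eval_C]
    push_cast
    ring
  have hD0 : D ≠ 0 := by
    intro h0
    have h1 : ∀ t : ℕ, Q.eval (t : ℝ) = Q.eval 0 := by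
      intro t
      induction t with
      | zero => simp
      | succ t ih =>
        have := hDe t
        rw [h0, eval_zero] at this
        linarith
    have h2 : Q = C (Q.eval 0) := by
      refine eq_of_infinite_eval_eq _ _ ?_
      refine Set.Infinite.mono ?_ (Set.infinite_range_of_injective
        (Nat.cast_injective : Function.Injective fun n : ℕ => (n : ℝ)))
      rintro _ ⟨t, rfl⟩
      show Q.eval (t : ℝ) = (C (Q.eval 0)).eval (t : ℝ)
      rw [h1 t, eval_C]
    rw [h2, natDegree_C] at h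
    exact lt_irrefl _ h
  rcases Nat.eq_zero_or_pos D.natDegree with h0 | hpos
  · have h3 : D = C (D.coeff 0) := eq_C_of_natDegree_eq_zero h0
    have hc : D.coeff 0 ≠ 0 := by
      intro h4
      rw [h4, C_0] at h3
      exact hD0 h3
    have h5 : ∀ t : ℕ, Q.eval ((t + 1 : ℕ) : ℝ) - Q.eval (t : ℝ) = D.coeff 0 := by
      intro t
      rw [← hDe t]
      conv_lhs => rw [h3, eval_C]
    rcases lt_or_gt_of_ne hc with hneg | hp
    · exact ⟨0, -D.coeff 0, by linarith, Or.inr fun t _ => by
        have := h5 t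
        show Q.eval ((t + 1 : ℕ) : ℝ) - Q.eval (t : ℝ) ≤ _
        linarith⟩
    · exact ⟨0, D.coeff 0, hp, Or.inl fun t _ => (h5 t).ge⟩
  · have hdeg : 0 < D.degree := natDegree_pos_iff_degree_pos.1 hpos
    rcases le_total 0 D.leadingCoeff with hl | hl
    · have h6 := (D.tendsto_atTop_of_leadingCoeff_nonneg hdeg hl).comp
        tendsto_natCast_atTop_atTop
      obtain ⟨T, hT⟩ := eventually_atTop.1 (h6.eventually_ge_atTop 1)
      exact ⟨T, 1, one_pos, Or.inl fun t ht => by
        have := hT t ht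
        rw [Function.comp_apply, hDe] at this
        exact this⟩
    · have h6 := (D.tendsto_atBot_of_leadingCoeff_nonpos hdeg hl).comp
        tendsto_natCast_atTop_atTop
      obtain ⟨T, hT⟩ := eventually_atTop.1 (h6.eventually_le_atBot (-1))
      exact ⟨T, 1, one_pos, Or.inr fun t ht => by
        have := hT t ht
        rw [Function.comp_apply, hDe] at this
        exact this⟩

theorem bx_one (N : ℕ) (F : (Fin 1 → ℕ) → ℝ) :
    bx 1 (fun _ => N) F = (N : ℝ)⁻¹ * ∑ n ∈ Finset.range N, F (fun _ => n) := by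
  unfold bx
  rw [Fin.prod_univ_one]
  congr 1
  refine Finset.sum_nbij' (fun m => m 0) (fun n _ => n) ?_ ?_ ?_ ?_ ?_
  · intro m hm
    exact Fintype.mem_piFinset.1 hm 0
  · intro n hn
    exact Fintype.mem_piFinset.2 fun _ => hn
  · intro m _
    funext i
    rw [Fin.fin_one_eq_zero i]
  · intro n _
    rfl
  · intro m _
    congr 1
    funext i
    rw [Fin.fin_one_eq_zero i]

theorem tendsto_one : Tendsto (fun (N : ℕ) (_ : Fin 1) => N) atTop atTop :=
  tendsto_atTop_atTop.2 fun b => ⟨b 0, fun N hN i => by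
    rw [Fin.fin_one_eq_zero i]
    exact hN⟩

variable {X : Type*} {mA mY mX : MeasurableSpace X} {μ : Measure X} [IsProbabilityMeasure μ]
variable {G : Type*} [Group G]
variable {Φ : G →* Equiv.Perm X} {ℓ : G → ℝ}

/-- one function with vanishing expectation on a level of the past -/
theorem one_zero (hFl : Flow μ Φ) (hA : Filt mX mA Φ ℓ) (hY : Base mY mA Φ) {g : ℕ → G}
    (hg : Steep fun n => ℓ (g n)) {F : X → ℝ} {r s : G} (hsr : ℓ s ≤ ℓ r)
    (hF : Measurable[cm mA Φ r] F) (hF1 : ∀ x, |F x| ≤ 1) (hH : CE μ (cm mA Φ s) F 0) :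
    ∀ᵐ x ∂μ, Tendsto (fun N : ℕ => (N : ℝ)⁻¹ * ∑ n ∈ Finset.range N, F (Φ (g n) x)) atTop
      (𝓝 0) := by
  have hb := fun i : ℕ => bound_ae (k := 1) (J := Unit) (S := Finset.univ)
    (q := fun n _ => g (n 0)) (lam := fun _ => 0) (Q := fun _ _ t => ℓ (g t))
    (F := fun _ => F) (H := fun _ => 0) (r := r) (s := s) (R := max (ℓ r - ℓ s) 1)
    one_pos hFl hA hY (fun n v => by
      unfold lev
      rw [Fin.sum_univ_one, zero_add]) (fun v _ l h => absurd hg h)
    (fun l => ⟨(), Finset.mem_univ _, hg⟩) hsr (le_max_left _ _)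
    (lt_of_lt_of_le one_pos (le_max_right _ _)) (fun _ _ => hF) (fun _ => hF1)
    (fun v hv => absurd (Finset.mem_univ v) hv) (fun _ _ => hH)
    (η := 1 / ((i : ℝ) + 1)) (by positivity)
  filter_upwards [ae_all_iff.2 hb] with x hx
  rw [Metric.tendsto_nhds]
  intro ε hε
  obtain ⟨i, hi⟩ := exists_nat_one_div_lt hε
  filter_upwards [tendsto_one.eventually (hx i)] with N hN
  rw [Real.dist_eq, sub_zero]
  have e1 : (fun n : Fin 1 → ℕ => errb Φ ℓ (max (ℓ r - ℓ s) 1) (fun _ : Unit => (0 : X → ℝ))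
      Finset.univ (fun _ => g (n 0)) x) = fun _ => 0 := by
    funext n
    unfold errb
    simp
  have e2 : bx 1 (fun _ : Fin 1 => N) (fun _ => (0 : ℝ)) = 0 := by
    unfold bx
    simp
  rw [e1, e2, add_zero, bx_one] at hN
  simp only [Finset.univ_unique, Finset.prod_singleton] at hN
  exact hN.trans_lt hi

/-- such functions are dense among the functions with vanishing expectation on the base -/
theorem dense_zero (hK : KExt μ mA mY Φ ℓ) {s₀ : G} (hs₀ : 0 < ℓ s₀) {f : X → ℝ}
    (hf : Measurable f) (hb : ∀ x, |f x| ≤ 1) (hV : Van μ mY f) {ε : ℝ} (hε : 0 < ε) :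
    ∃ (F : X → ℝ) (r s : G), ℓ s ≤ ℓ r ∧ Measurable[cm mA Φ r] F ∧ (∀ x, |F x| ≤ 1) ∧
      CE μ (cm mA Φ s) F 0 ∧ ∫ x, (f x - 2 * F x) ^ 2 ∂μ ≤ ε := by
  obtain ⟨r, hr⟩ := dense_future hK.fl hK.filt hs₀ hK.gen hf hb (ε := ε / 6) (by positivity)
  obtain ⟨g, hg, hge⟩ := exists_CE (cm_le hK.fl hK.filt r) hf hb (μ := μ)
  have hgV := van_CE (cm_le hK.fl hK.filt r) (base_le hK.base r) hf hb hg hV
  have hgm : Measurable g := hg.1.mono (cm_le hK.fl hK.filt r) le_rfl
  obtain ⟨s, hsr, hs⟩ := small_past hK.fl hK.filt hs₀ hK.tail hgm hg.2.1 hgV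
    (ε := ε / 6) (by positivity) r
  obtain ⟨g', hg', hge'⟩ := exists_CE (cm_le hK.fl hK.filt s) hgm hg.2.1 (μ := μ)
  have hgm' : Measurable g' := hg'.1.mono (cm_le hK.fl hK.filt s) le_rfl
  have hi : ∀ {u : X → ℝ}, Measurable u → (∀ x, |u x| ≤ 1) → Integrable u μ := fun hu hu1 =>
    Integrable.of_bound hu.aestronglyMeasurable 1 (Eventually.of_forall hu1)
  refine ⟨fun x => (g x - g' x) / 2, r, s, hsr, ?_, fun x => ?_, ⟨measurable_const, ?_, ?_⟩, ?_⟩
  · exact (hg.1.sub (hg'.1.mono (cm_mono hK.filt hsr) le_rfl)).div_const 2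
  · rw [abs_div, abs_two]
    have := abs_sub (g x) (g' x)
    linarith [hg.2.1 x, hg'.2.1 x]
  · intro x
    simp
  · intro h hh hC
    have h1 := hg'.2.2 h hh hC
    have e : ∀ x, ((g x - g' x) / 2 - (0 : X → ℝ) x) * h x = 2⁻¹ * ((g x - g' x) * h x) := by
      intro x
      rw [Pi.zero_apply]
      ring
    simp only [e]
    rw [integral_const_mul, h1, mul_zero]
  · have e : ∀ x, (f x - 2 * ((g x - g' x) / 2)) ^ 2 ≤ 3 * |f x - g x| + 3 * |g' x| := by
      intro x
      have e1 : f x - 2 * ((g x - g' x) / 2) = (f x - g x) + g' x := by ring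
      rw [e1, ← sq_abs, sq]
      have h1 : |(f x - g x) + g' x| ≤ |f x - g x| + |g' x| := abs_add_le _ _
      have h2 : |(f x - g x) + g' x| ≤ 3 := by
        refine h1.trans ?_
        have := abs_sub (f x) (g x)
        linarith [hb x, hg.2.1 x, hg'.2.1 x]
      calc |(f x - g x) + g' x| * |(f x - g x) + g' x| ≤
          3 * |(f x - g x) + g' x| := mul_le_mul_of_nonneg_right h2 (abs_nonneg _)
        _ ≤ _ := by linarith
    have i1 : Integrable (fun x => |f x - g x|) μ := ((hi hf hb).sub (hi hgm hg.2.1)).abs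
    have i2 : Integrable (fun x => |g' x|) μ := (hi hgm' hg'.2.1).abs
    refine (integral_mono_of_nonneg (Eventually.of_forall fun x => sq_nonneg _)
      ((i1.const_mul 3).add (i2.const_mul 3)) (Eventually.of_forall e)).trans ?_
    rw [integral_add' (i1.const_mul 3) (i2.const_mul 3), integral_const_mul, integral_const_mul]
    have e3 : ∫ x, |f x - g x| ∂μ ≤ ε / 6 := by
      refine le_trans (le_of_eq ?_) hr
      apply integral_congr_ae
      filter_upwards [hge] with x hx
      rw [hx]
    have e4 : ∫ x, |g' x| ∂μ ≤ ε / 6 := by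
      refine le_trans (le_of_eq ?_) hs
      apply integral_congr_ae
      filter_upwards [hge'] with x hx
      rw [hx]
    linarith

/-- the sequence `t ↦ ∏ u_i ^ P_i(t)` -/
def sq {d : ℕ} (u : Fin d → G) (P : Fin d → ℤ[X]) (t : ℕ) : G :=
  (List.ofFn fun i => u i ^ (P i).eval (t : ℤ)).prod

theorem phi_sq {d : ℕ} (u : Fin d → G) (P : Fin d → ℤ[X]) (t : ℕ) :
    Φ (sq u P t) = (List.ofFn fun i => Φ (u i) ^ (P i).eval (t : ℤ)).prod := by
  unfold sq
  rw [map_list_prod, List.map_ofFn]
  congr 2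
  funext i
  rw [Function.comp_apply, map_zpow]

/-- **One function along polynomials in a Kolmogorov extension.** -/
theorem g1_ext (hK : KExt μ mA mY Φ ℓ) {d : ℕ} (u : Fin d → G)
    (hu : ∀ i j, Commute (u i) (u j)) (P : Fin d → ℤ[X])
    (hst : Steep fun t => ℓ (sq u P t))
    (hbase : ∀ e : X → ℂ, @BM X mX e → Measurable[mY] e → ∀ᵐ x ∂μ, ∃ L : ℂ,
      Tendsto (fun N : ℕ => (N : ℂ)⁻¹ * ∑ n ∈ Finset.range N, e (Φ (sq u P n) x)) atTop
        (𝓝 L)) :
    G1 μ (fun n => (Φ (sq u P n) : X → X)) := by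
  obtain ⟨s₀, hs₀⟩ : ∃ s₀ : G, 0 < ℓ s₀ := by
    by_contra hcon
    push Not at hcon
    have h1 : ∀ g : G, ℓ g = 0 := by
      intro g
      have h2 := hcon g
      have h3 := hcon g⁻¹
      rw [hK.filt.inv] at h3
      linarith
    obtain ⟨T, δ, hδ, h | h⟩ := hst
    · have := h T le_rfl
      simp only [h1] at this
      linarith
    · have := h T le_rfl
      simp only [h1] at this
      linarith
  have key := Pool.Agent.Zk89.AP.g1_comm (μ := μ) (T := fun i => Φ (u i))
    (fun i j => (hu i j).map Φ) (fun a => by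
      have : (List.ofFn fun i => Φ (u i) ^ a i).prod = Φ (List.ofFn fun i => u i ^ a i).prod := by
        rw [map_list_prod, List.map_ofFn]
        congr 2
        funext i
        rw [Function.comp_apply, map_zpow]
      rw [this]
      exact hK.fl _) P ?_
  · simp only [phi_sq]
    exact key
  · intro H hH ⟨C₀, hC₀⟩ ε hε
    set C : ℝ := |C₀| + 1 with hC
    have hCpos : 0 < C := by positivity
    have hCb : ∀ x, |H x| ≤ C := fun x =>
      ((hC₀ x).trans (le_abs_self _)).trans (by rw [hC]; linarith)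
    have hf0 : Measurable fun x => H x / C := hH.div_const _
    have hb0 : ∀ x, |H x / C| ≤ 1 := by
      intro x
      rw [abs_div, abs_of_pos hCpos, div_le_one hCpos]
      exact hCb x
    have hYX : mY ≤ mX := hK.base.le.trans hK.filt.le
    obtain ⟨e, he, hee⟩ := exists_CE hYX hf0 hb0 (μ := μ)
    have hem : Measurable e := he.1.mono hYX le_rfl
    have hV : Van μ mY fun x => (H x / C - e x) / 2 := by
      intro B hB
      have h1 := he.2.2 (B.indicator fun _ => 1) (measurable_const.indicator hB) ⟨1, fun x => by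
        by_cases hx : x ∈ B <;> simp [hx]⟩
      have h2 : (fun x => (H x / C - e x) * B.indicator (fun _ => (1 : ℝ)) x) =
          B.indicator fun x => H x / C - e x := by
        funext x
        by_cases hx : x ∈ B <;> simp [hx]
      rw [h2, integral_indicator (hYX _ hB)] at h1
      rw [integral_div, h1, zero_div]
    obtain ⟨F, r, s, hsr, hFm, hF1, hCE, hFi⟩ := dense_zero hK hs₀
      (f := fun x => (H x / C - e x) / 2) ((hf0.sub hem).div_const 2) (fun x => by
        rw [abs_div, abs_two]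
        have := abs_sub (H x / C) (e x)
        linarith [hb0 x, he.2.1 x]) hV (ε := ε / (2 * C) ^ 2) (by positivity)
    have hFmX : Measurable F := hFm.mono (cm_le hK.fl hK.filt r) le_rfl
    refine ⟨fun x => (C : ℂ) * ((e x : ℂ) + 4 * (F x : ℂ)), ⟨?_, C * 5, fun x => ?_⟩, ?_, ?_⟩
    · exact ((Complex.measurable_ofReal.comp hem).add
        ((Complex.measurable_ofReal.comp hFmX).const_mul 4)).const_mul _
    · rw [norm_mul, Complex.norm_real, Real.norm_of_nonneg hCpos.le]
      refine mul_le_mul_of_nonneg_left ?_ hCpos.le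
      refine (norm_add_le _ _).trans ?_
      rw [norm_mul, Complex.norm_real, Complex.norm_real, Real.norm_eq_abs, Real.norm_eq_abs]
      have h4 : ‖(4 : ℂ)‖ = 4 := by simp
      rw [h4]
      linarith [he.2.1 x, hF1 x]
    · have e1 : ∀ x, ‖(H x : ℂ) - (C : ℂ) * ((e x : ℂ) + 4 * (F x : ℂ))‖ ^ 2 =
          (2 * C) ^ 2 * ((H x / C - e x) / 2 - 2 * F x) ^ 2 := by
        intro x
        have e2 : (H x : ℂ) - (C : ℂ) * ((e x : ℂ) + 4 * (F x : ℂ)) =
            ((2 * C * ((H x / C - e x) / 2 - 2 * F x) : ℝ) : ℂ) := by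
          push_cast
          have hCc : (C : ℂ) ≠ 0 := by exact_mod_cast hCpos.ne'
          field_simp
          ring
        rw [e2, Complex.norm_real, Real.norm_eq_abs, sq_abs, mul_pow]
      simp only [e1]
      rw [integral_const_mul]
      calc (2 * C) ^ 2 * ∫ x, ((H x / C - e x) / 2 - 2 * F x) ^ 2 ∂μ ≤
          (2 * C) ^ 2 * (ε / (2 * C) ^ 2) := by gcongr
        _ = ε := by field_simp
    · have h1 := hbase (fun x => (e x : ℂ)) ⟨Complex.measurable_ofReal.comp hem, 1, fun x => by
        rw [Complex.norm_real]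
        exact he.2.1 x⟩ (Complex.measurable_ofReal.comp he.1)
      have h2 := one_zero hK.fl hK.filt hK.base (g := sq u P) hst hsr hFm hF1 hCE
      filter_upwards [h1, h2] with x hx1 hx2
      obtain ⟨L, hL⟩ := hx1
      have hx2' := (Complex.continuous_ofReal.tendsto _).comp hx2
      rw [Complex.ofReal_zero] at hx2'
      refine ⟨_, ((hL.add (hx2'.const_mul 4)).const_mul (C : ℂ)).congr fun N => ?_⟩
      simp only [Function.comp_apply, ← phi_sq]
      push_cast
      rw [Finset.mul_sum, Finset.mul_sum, Finset.mul_sum, Finset.mul_sum,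
        ← Finset.sum_add_distrib, Finset.mul_sum]
      refine Finset.sum_congr rfl fun n _ => ?_
      ring

end Pool.Agent.Zk89.KC
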