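import Pool.Agent.TH784.KE.Multi

/-!
# Levels along sequences that are eventually steep
-/

set_option autoImplicit false

open Filter Topology

noncomputable section

namespace Pool.Agent.Zk89.KC

open Pool.Agent.W761.Box (bx)
open Pool.Agent.TH784.KE (bx_slice bx_le_of)

/-- `Q` is eventually monotone with increments bounded away from zero -/
def Steep (Q : ℕ → ℝ) : Prop :=
  ∃ (T : ℕ) (δ : ℝ), 0 < δ ∧
    ((∀ t, T ≤ t → δ ≤ Q (t + 1) - Q t) ∨ (∀ t, T ≤ t → Q (t + 1) - Q t ≤ -δ))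

theorem Steep.neg {Q : ℕ → ℝ} (h : Steep Q) : Steep fun t => -Q t := by
  obtain ⟨T, δ, hδ, h | h⟩ := h
  · exact ⟨T, δ, hδ, Or.inr fun t ht => by have := h t ht; linarith⟩
  · exact ⟨T, δ, hδ, Or.inl fun t ht => by have := h t ht; linarith⟩

theorem up_gap {Q : ℕ → ℝ} {T : ℕ} {δ : ℝ} (h : ∀ t, T ≤ t → δ ≤ Q (t + 1) - Q t) {i j : ℕ}
    (hj : T ≤ j) (hij : j ≤ i) : ((i : ℝ) - j) * δ ≤ Q i - Q j := by
  induction i, hij using Nat.le_induction with
  | base => simp
  | succ i hij ih =>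
    have := h i (hj.trans hij)
    push_cast
    nlinarith

open Classical in
theorem count_up {Q : ℕ → ℝ} {T : ℕ} {δ : ℝ} (hδ : 0 < δ)
    (h : ∀ t, T ≤ t → δ ≤ Q (t + 1) - Q t) {R : ℝ} (hR : 0 < R) (c : ℝ) (M : ℕ) :
    ∑ t ∈ Finset.range M, (if |c + Q t| < R then (1 : ℝ) else 0) ≤ T + (2 * R / δ + 1) := by
  rw [← Finset.sum_filter, Finset.sum_const, nsmul_eq_mul, mul_one]
  set S := (Finset.range M).filter fun t : ℕ => |c + Q t| < R with hS
  set S' := S.filter fun t => T ≤ t with hS'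
  have hsplit : S.card ≤ T + S'.card := by
    have h1 : S ⊆ Finset.range T ∪ S' := by
      intro t ht
      rw [Finset.mem_union, Finset.mem_range]
      by_cases htT : T ≤ t
      · exact Or.inr (Finset.mem_filter.2 ⟨ht, htT⟩)
      · exact Or.inl (not_le.1 htT)
    refine (Finset.card_le_card h1).trans ((Finset.card_union_le _ _).trans ?_)
    rw [Finset.card_range]
  have h2 : (S.card : ℝ) ≤ T + S'.card := by exact_mod_cast hsplit
  refine h2.trans ?_
  gcongr
  rcases S'.eq_empty_or_nonempty with h0 | h0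
  · rw [h0, Finset.card_empty, Nat.cast_zero]
    positivity
  · set t₀ := S'.min' h0 with ht₀
    have hmem : t₀ ∈ S' := S'.min'_mem h0
    have h1 : |c + Q t₀| < R := (Finset.mem_filter.1 (Finset.mem_filter.1 hmem).1).2
    have hT0 : T ≤ t₀ := (Finset.mem_filter.1 hmem).2
    have hsub : S' ⊆ Finset.Ico t₀ (t₀ + ⌈2 * R / δ⌉₊) := by
      intro t ht
      rw [Finset.mem_Ico]
      have hle : t₀ ≤ t := S'.min'_le t ht
      refine ⟨hle, ?_⟩
      have h2 : |c + Q t| < R := (Finset.mem_filter.1 (Finset.mem_filter.1 ht).1).2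
      have h3 : ((t - t₀ : ℕ) : ℝ) * δ < 2 * R := by
        rw [Nat.cast_sub hle]
        refine (up_gap h hT0 hle).trans_lt ?_
        have h4 := (abs_lt.1 h2).2
        have h5 := (abs_lt.1 h1).1
        linarith
      have h4 : ((t - t₀ : ℕ) : ℝ) < 2 * R / δ := by
        rw [lt_div_iff₀ hδ]
        exact h3
      have h5 : t - t₀ < ⌈2 * R / δ⌉₊ := Nat.lt_ceil.2 h4
      omega
    have h6 : (S'.card : ℝ) ≤ ⌈2 * R / δ⌉₊ := by
      have := Finset.card_le_card hsub
      rw [Nat.card_Ico] at this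
      have h7 : S'.card ≤ ⌈2 * R / δ⌉₊ := by omega
      exact_mod_cast h7
    have h8 : (⌈2 * R / δ⌉₊ : ℝ) < 2 * R / δ + 1 := Nat.ceil_lt_add_one (by positivity)
    linarith

open Classical in
/-- few values of a steep sequence lie in an interval -/
theorem count_steep {Q : ℕ → ℝ} (hQ : Steep Q) {R : ℝ} (hR : 0 < R) :
    ∃ C : ℝ, 0 ≤ C ∧ ∀ (c : ℝ) (M : ℕ),
      ∑ t ∈ Finset.range M, (if |c + Q t| < R then (1 : ℝ) else 0) ≤ C := by
  obtain ⟨T, δ, hδ, h | h⟩ := hQ
  · exact ⟨T + (2 * R / δ + 1), by positivity, fun c M => count_up hδ h hR c M⟩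
  · refine ⟨T + (2 * R / δ + 1), by positivity, fun c M => ?_⟩
    have h1 := count_up (Q := fun t => -Q t) hδ (fun t ht => by have := h t ht; linarith) hR
      (-c) M
    refine le_trans (le_of_eq ?_) h1
    refine Finset.sum_congr rfl fun t _ => ?_
    have e : -c + -Q t = -(c + Q t) := by ring
    rw [e, abs_neg]

section lev

variable {J : Type*} {k : ℕ}

/-- levels -/
def lev (lam : J → ℝ) (Q : J → Fin k → ℕ → ℝ) (n : Fin k → ℕ) (v : J) : ℝ :=
  lam v + ∑ l, Q v l (n l)

theorem lev_update (lam : J → ℝ) (Q : J → Fin k → ℕ → ℝ) (n : Fin k → ℕ) (l : Fin k) (t : ℕ)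
    (v : J) : lev lam Q (Function.update n l t) v =
      (lam v + ∑ j ∈ Finset.univ.erase l, Q v j (n j)) + Q v l t := by
  classical
  unfold lev
  rw [add_assoc]
  congr 1
  rw [← Finset.sum_erase_add Finset.univ _ (Finset.mem_univ l), Function.update_self]
  congr 1
  refine Finset.sum_congr rfl fun j hj => ?_
  rw [Function.update_of_ne (Finset.ne_of_mem_erase hj)]

open Classical in
/-- few coincidences of the levels -/
theorem count_close {R : ℝ} (hR : 0 < R) (lam : J → ℝ) (Q : J → Fin k → ℕ → ℝ)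
    {v w : J} {l : Fin k} (hl : Steep fun t => Q v l t - Q w l t) :
    ∃ C : ℝ, 0 ≤ C ∧ ∀ {N : Fin k → ℕ}, (∀ j, 1 ≤ N j) →
      bx k N (fun n => if |lev lam Q n v - lev lam Q n w| < R then (1 : ℝ) else 0) ≤
        C / N l := by
  obtain ⟨C, hC, h⟩ := count_steep hl hR
  refine ⟨C, hC, fun {N} hN => ?_⟩
  rw [bx_slice hN l]
  have hpos : (0 : ℝ) < N l := by
    have := hN l
    positivity
  refine bx_le_of (by positivity) fun n _ => ?_
  rw [div_eq_inv_mul]
  refine mul_le_mul_of_nonneg_left ?_ (by positivity)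
  have h1 := h ((lam v + ∑ j ∈ Finset.univ.erase l, Q v j (n j)) -
    (lam w + ∑ j ∈ Finset.univ.erase l, Q w j (n j))) (N l)
  refine le_trans (le_of_eq ?_) h1
  refine Finset.sum_congr rfl fun t _ => ?_
  rw [lev_update, lev_update]
  have e : (lam v + ∑ j ∈ Finset.univ.erase l, Q v j (n j)) + Q v l t -
      ((lam w + ∑ j ∈ Finset.univ.erase l, Q w j (n j)) + Q w l t) =
      (lam v + ∑ j ∈ Finset.univ.erase l, Q v j (n j)) -
        (lam w + ∑ j ∈ Finset.univ.erase l, Q w j (n j)) + (Q v l t - Q w l t) := by ring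
  rw [e]

open Classical in
theorem tendsto_close {R : ℝ} (hR : 0 < R) (lam : J → ℝ) (Q : J → Fin k → ℕ → ℝ) {v w : J}
    {l : Fin k} (hl : Steep fun t => Q v l t - Q w l t) :
    Tendsto (fun N => bx k N
      (fun n => if |lev lam Q n v - lev lam Q n w| < R then (1 : ℝ) else 0))
      atTop (𝓝 0) := by
  obtain ⟨C, hC, h⟩ := count_close hR lam Q hl
  have h1 : Tendsto (fun N : Fin k → ℕ => C / (N l : ℝ)) atTop (𝓝 0) := by
    refine Tendsto.div_atTop tendsto_const_nhds ?_
    refine tendsto_natCast_atTop_atTop.comp (tendsto_atTop_atTop.2 fun b => ⟨fun _ => b,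
      fun N hN => hN l⟩)
  refine squeeze_zero' (Eventually.of_forall fun N =>
    Pool.Agent.W761.Box.bx_nonneg fun n => by split_ifs <;> norm_num) ?_ h1
  exact eventually_atTop.2 ⟨fun _ => 1, fun N hN => h hN⟩

end lev

end Pool.Agent.Zk89.KC
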