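import Pool.Agent.Zk89.KC.Lev

/-!
# Sums along a line of positions with steep levels
-/

set_option autoImplicit false
set_option linter.unusedSectionVars false

open MeasureTheory Filter Topology

noncomputable section

namespace Pool.Agent.Zk89.KC

open Pool.Agent.TH784.KE

variable {X : Type*} {mA mY mX : MeasurableSpace X} {μ : Measure X} [IsProbabilityMeasure μ]
variable {G : Type*} [Group G]
variable {Φ : G →* Equiv.Perm X} {ℓ : G → ℝ}
variable {J : Type*} [DecidableEq J]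

theorem orth_line (hFl : Flow μ Φ) (hA : Filt mX mA Φ ℓ) (hY : Base mY mA Φ) {V : Finset J}
    {v : J} (hv : v ∈ V) {p : ℕ → J → G}
    {F H : J → X → ℝ} {W : ℕ → X → ℝ} {r s : G} {R : ℝ}
    (hsr : ℓ s ≤ ℓ r) (hR : ℓ r - ℓ s ≤ R) (hR0 : 0 ≤ R)
    (hF : ∀ w ∈ V, Measurable[cm mA Φ r] (F w) ∧ ∀ x, |F w x| ≤ 1)
    (hH : CE μ (cm mA Φ s) (F v) (H v)) (hW : ∀ m, Measurable[mY] (W m) ∧ ∀ x, |W m x| ≤ 1)
    (rk : ℕ → ℤ) (M : Finset ℕ)
    (hrk : ∀ i ∈ M, ∀ j ∈ M, rk j < rk i → R ≤ ℓ (p i v) - ℓ (p j v)) :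
    Orth μ rk M fun m x => DD V Φ ℓ R F H (W m) (p m) v x / 2 := by
  classical
  intro i hi M' hM' hlt c
  by_cases htop : top V ℓ R (p i) v
  swap
  · have e : ∀ x, DD V Φ ℓ R F H (W i) (p i) v x = 0 := by
      intro x
      unfold DD
      rw [if_neg htop]
    simp only [e, zero_div, zero_mul, integral_zero]
  set t : G := s * p i v with ht
  have hpast : ∀ j ∈ M', Measurable[cm mA Φ t]
      (DD V Φ ℓ R F H (W j) (p j) v) := by
    intro j hj
    refine DD_past hA hY hv hsr hR0 (fun w hw => (hF w hw).1) hH.1 (hW j).1 ?_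
    have h1 := hrk i hi j (hM' hj) (hlt j hj)
    rw [ht, hA.hom]
    linarith
  have hexp : Measurable[cm mA Φ t] fun x => Real.exp (c * ∑ j ∈ M',
      DD V Φ ℓ R F H (W j) (p j) v x / 2) := by
    have h1 : Measurable[cm mA Φ t] fun x => ∑ j ∈ M',
        DD V Φ ℓ R F H (W j) (p j) v x / 2 :=
      Finset.measurable_fun_sum _ fun j hj => (hpast j hj).div_const 2
    exact (h1.const_mul c).exp
  have hprod : Measurable[cm mA Φ t] fun x => ∏ w ∈ V.erase v, F w (Φ (p i w) x) := by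
    refine Finset.measurable_fun_prod _ fun w hw => ?_
    refine (meas_shift _ (hF w (Finset.mem_of_mem_erase hw)).1).mono
      (cm_mono hA ?_) le_rfl
    have h9 : ℓ (p i w) + R ≤ ℓ (p i v) :=
      htop w (Finset.mem_of_mem_erase hw) (Finset.ne_of_mem_erase hw)
    rw [ht, hA.hom, hA.hom]
    linarith
  have hWm : Measurable[cm mA Φ t] (W i) := (hW i).1.mono (base_le hY t) le_rfl
  have hfm : Measurable (F v) := (hF v hv).1.mono (cm_le hFl hA r) le_rfl
  have hb : ∀ x, |((∏ w ∈ V.erase v, F w (Φ (p i w) x)) * W i x) *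
      Real.exp (c * ∑ j ∈ M', DD V Φ ℓ R F H (W j) (p j) v x / 2)| ≤
      1 * Real.exp (|c| * M'.card) := by
    intro x
    rw [abs_mul, abs_mul, abs_of_pos (Real.exp_pos _)]
    have h2 := prod_abs_le (Φ := Φ) (V := V.erase v) (F := F)
      (fun w hw => (hF w (Finset.mem_of_mem_erase hw)).2) (p i) x
    have h3 := (hW i).2 x
    have h4 : |∏ w ∈ V.erase v, F w (Φ (p i w) x)| * |W i x| ≤ 1 := by
      calc _ ≤ (1 : ℝ) * 1 := mul_le_mul h2 h3 (abs_nonneg _) zero_le_one
        _ = 1 := one_mul 1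
    refine mul_le_mul h4 ?_ (Real.exp_pos _).le zero_le_one
    apply Real.exp_le_exp.2
    refine (le_abs_self _).trans ?_
    rw [abs_mul]
    refine mul_le_mul_of_nonneg_left ?_ (abs_nonneg _)
    refine (Finset.abs_sum_le_sum_abs _ _).trans ?_
    refine (Finset.sum_le_sum (g := fun _ => (1 : ℝ)) fun j hj => ?_).trans (by simp)
    rw [abs_div, abs_two]
    have := DD_abs (Φ := Φ) (ℓ := ℓ) (R := R) hv (fun w hw => (hF w hw).2) hH.2.1 (hW j).2
      (p j) x
    linarith
  have key := orth_shift hFl hA hfm hH (p i v) ((hprod.mul hWm).mul hexp) hb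
  have e : ∀ x, DD V Φ ℓ R F H (W i) (p i) v x / 2 *
      Real.exp (c * ∑ j ∈ M', DD V Φ ℓ R F H (W j) (p j) v x / 2) =
      2⁻¹ * ((F v (Φ (p i v) x) - H v (Φ (p i v) x)) *
        ((((∏ w ∈ V.erase v, F w (Φ (p i w) x)) * W i x)) *
        Real.exp (c * ∑ j ∈ M', DD V Φ ℓ R F H (W j) (p j) v x / 2))) := by
    intro x
    conv_lhs =>
      enter [1, 1]
      unfold DD
    rw [if_pos htop]
    ring
  simp only [e]
  rw [integral_const_mul]
  refine mul_eq_zero_of_right _ ?_
  exact key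

theorem line_bound (hFl : Flow μ Φ) (hA : Filt mX mA Φ ℓ) (hY : Base mY mA Φ) {V : Finset J}
    {v : J} (hv : v ∈ V) {p : ℕ → J → G} {lam : ℝ} {Q : ℕ → ℝ}
    (hp : ∀ m : ℕ, ℓ (p m v) = lam + Q m)
    {F H : J → X → ℝ} {W : ℕ → X → ℝ} {r s : G} {R : ℝ}
    (hsr : ℓ s ≤ ℓ r) (hR : ℓ r - ℓ s ≤ R) (hR0 : 0 ≤ R)
    (hF : ∀ w ∈ V, Measurable[cm mA Φ r] (F w) ∧ ∀ x, |F w x| ≤ 1)
    (hH : CE μ (cm mA Φ s) (F v) (H v)) (hW : ∀ m, Measurable[mY] (W m) ∧ ∀ x, |W m x| ≤ 1)
    {T : ℕ} {δ : ℝ} (hδ : 0 < δ)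
    (hQ : (∀ t, T ≤ t → δ ≤ Q (t + 1) - Q t) ∨ (∀ t, T ≤ t → Q (t + 1) - Q t ≤ -δ))
    {L : ℕ} (hL : 0 < L) (hβ : R ≤ L * δ) {N : ℕ} (hN : 0 < N)
    {t : ℝ} (ht : 0 ≤ t) :
    μ.real {x | t + 2 * T ≤ |∑ m ∈ Finset.range N,
      DD V Φ ℓ R F H (W m) (p m) v x|} ≤
      L * (2 * Real.exp (-((t / (2 * L)) ^ 2 / (2 * N)))) := by
  classical
  have hL' : (0 : ℝ) < L := by exact_mod_cast hL
  have hmeas : ∀ m, Measurable (DD V Φ ℓ R F H (W m) (p m) v) := fun m =>
    (DD_past hA hY hv hsr hR0 (fun w hw => (hF w hw).1) hH.1 (hW m).1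
      (t := r * p m v) (hA.hom _ _).ge).mono (cm_le hFl hA _) le_rfl
  set I := (Finset.range N).filter (fun m => T ≤ m) with hI
  have key : ∀ ρ ∈ Finset.range L, μ.real {x | t / (2 * L) ≤
      |∑ m ∈ I.filter (fun m => m % L = ρ),
        DD V Φ ℓ R F H (W m) (p m) v x / 2|} ≤
      2 * Real.exp (-((t / (2 * L)) ^ 2 / (2 * N))) := by
    intro ρ _
    have hcard : (I.filter (fun m => m % L = ρ)).card ≤ N :=
      (Finset.card_filter_le _ _).trans ((Finset.card_filter_le _ _).trans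
        (Finset.card_range N).le)
    have hM : ∀ m ∈ I.filter (fun m => m % L = ρ), m % L = ρ ∧ T ≤ m :=
      fun m hm => ⟨(Finset.mem_filter.1 hm).2,
        (Finset.mem_filter.1 (Finset.mem_filter.1 hm).1).2⟩
    have hb : ∀ m ∈ I.filter (fun m => m % L = ρ), ∀ x,
        |DD V Φ ℓ R F H (W m) (p m) v x / 2| ≤ 1 := by
      intro m _ x
      rw [abs_div, abs_two]
      have := DD_abs (Φ := Φ) (ℓ := ℓ) (R := R) hv (fun w hw => (hF w hw).2) hH.2.1 (hW m).2
        (p m) x
      linarith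
    have hmm : ∀ m ∈ I.filter (fun m => m % L = ρ), Measurable fun x =>
        DD V Φ ℓ R F H (W m) (p m) v x / 2 :=
      fun m _ => (hmeas m).div_const 2
    have hmod : ∀ i j : ℕ, j < i → i % L = j % L → (L : ℝ) ≤ (i : ℝ) - j := by
      intro i j hij h
      have h1 : L ∣ i - j := (Nat.modEq_iff_dvd' hij.le).1 h.symm
      have h2 := Nat.le_of_dvd (Nat.sub_pos_of_lt hij) h1
      have h3 : ((i - j : ℕ) : ℝ) = (i : ℝ) - j := Nat.cast_sub hij.le
      rw [← h3]
      exact_mod_cast h2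
    rcases hQ with hpos | hneg
    · have hinj : Function.Injective fun m : ℕ => (m : ℤ) := Nat.cast_injective
      refine azuma hinj _ hmm hb ?_ (div_nonneg ht (by positivity)) hN hcard
      refine orth_line hFl hA hY hv hsr hR hR0 hF hH hW _ _ ?_
      intro i hi j hj hij
      have hij' : j < i := by exact_mod_cast hij
      have h1 := hmod i j hij' ((hM i hi).1.trans (hM j hj).1.symm)
      have h2 := up_gap hpos (hM j hj).2 hij'.le
      rw [hp, hp]
      nlinarith
    · have hinj : Function.Injective fun m : ℕ => -(m : ℤ) := fun a b h => by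
        have : (a : ℤ) = b := neg_injective h
        exact_mod_cast this
      refine azuma hinj _ hmm hb ?_ (div_nonneg ht (by positivity)) hN hcard
      refine orth_line hFl hA hY hv hsr hR hR0 hF hH hW _ _ ?_
      intro i hi j hj hij
      have hij' : i < j := by
        have : (i : ℤ) < j := by linarith
        exact_mod_cast this
      have h1 := hmod j i hij' ((hM j hj).1.trans (hM i hi).1.symm)
      have h2 := up_gap (Q := fun t => -Q t) (δ := δ)
        (fun t ht => by have := hneg t ht; linarith) (hM i hi).2 hij'.le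
      rw [hp, hp]
      nlinarith
  have hsub : {x | t + 2 * T ≤ |∑ m ∈ Finset.range N,
      DD V Φ ℓ R F H (W m) (p m) v x|} ⊆
      ⋃ ρ ∈ Finset.range L, {x | t / (2 * L) ≤
      |∑ m ∈ I.filter (fun m => m % L = ρ),
        DD V Φ ℓ R F H (W m) (p m) v x / 2|} := by
    intro x hx
    by_contra hcon
    simp only [Set.mem_iUnion, Set.mem_ofPred_eq, not_exists, not_le] at hcon
    have h1 : ∑ m ∈ I, DD V Φ ℓ R F H (W m) (p m) v x =
        2 * ∑ ρ ∈ Finset.range L, ∑ m ∈ I.filter (fun m => m % L = ρ),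
          DD V Φ ℓ R F H (W m) (p m) v x / 2 := by
      rw [Finset.sum_fiberwise_of_maps_to (s := I) (t := Finset.range L)
        (g := fun m => m % L) (fun m _ => Finset.mem_range.2 (Nat.mod_lt _ hL)), Finset.mul_sum]
      refine Finset.sum_congr rfl fun m _ => ?_
      ring
    have h2 : |∑ m ∈ I, DD V Φ ℓ R F H (W m) (p m) v x| < t := by
      rw [h1, abs_mul, abs_two]
      have h3 : |∑ ρ ∈ Finset.range L, ∑ m ∈ I.filter (fun m => m % L = ρ),
          DD V Φ ℓ R F H (W m) (p m) v x / 2| < L * (t / (2 * L)) := by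
        refine (Finset.abs_sum_le_sum_abs _ _).trans_lt ?_
        refine (Finset.sum_lt_sum_of_nonempty ⟨0, Finset.mem_range.2 hL⟩
          fun ρ hρ => hcon ρ hρ).trans_le ?_
        rw [Finset.sum_const, Finset.card_range, nsmul_eq_mul]
      calc 2 * _ < 2 * (L * (t / (2 * L))) := by linarith
        _ = t := by field_simp
    have h4 : |∑ m ∈ (Finset.range N).filter (fun m => ¬ T ≤ m),
        DD V Φ ℓ R F H (W m) (p m) v x| ≤ 2 * T := by
      refine (Finset.abs_sum_le_sum_abs _ _).trans ?_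
      refine (Finset.sum_le_sum (g := fun _ => (2 : ℝ)) fun m _ =>
        DD_abs (Φ := Φ) (ℓ := ℓ) (R := R) hv (fun w hw => (hF w hw).2) hH.2.1 (hW m).2
        (p m) x).trans ?_
      rw [Finset.sum_const, nsmul_eq_mul, mul_comm]
      have h5 : ((Finset.range N).filter (fun m => ¬ T ≤ m)).card ≤ T := by
        have h6 : (Finset.range N).filter (fun m => ¬ T ≤ m) ⊆ Finset.range T := by
          intro m hm
          exact Finset.mem_range.2 (not_le.1 (Finset.mem_filter.1 hm).2)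
        exact (Finset.card_le_card h6).trans (Finset.card_range T).le
      have h7 : (((Finset.range N).filter (fun m => ¬ T ≤ m)).card : ℝ) ≤ T := by
        exact_mod_cast h5
      linarith
    have h8 : |∑ m ∈ Finset.range N, DD V Φ ℓ R F H (W m) (p m) v x| < t + 2 * T := by
      rw [← Finset.sum_filter_add_sum_filter_not (Finset.range N) (fun m => T ≤ m)]
      exact (abs_add_le _ _).trans_lt (add_lt_add_of_lt_of_le h2 h4)
    exact absurd hx (not_le.2 h8)
  refine (measureReal_mono hsub (measure_ne_top _ _)).trans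
    ((measureReal_biUnion_finset_le _ _).trans ?_)
  refine (Finset.sum_le_sum key).trans ?_
  rw [Finset.sum_const, Finset.card_range, nsmul_eq_mul]

end Pool.Agent.Zk89.KC
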