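import Pool.Agent.Zk89.KC.Good
import Pool.Agent.Zk89.KB.Main

/-!
# Unrestricted box averages: Kolmogorov actions and extensions, sequences with steep levels
-/

set_option autoImplicit false
set_option linter.unusedSectionVars false

open MeasureTheory Filter Topology
open scoped ENNReal

noncomputable section

namespace Pool.Agent.Zk89.KC

open Pool.Agent.W761.Box (bx bxc BM Good1 bxc_add bxc_sub bxc_mul)
open Pool.Agent.TH784.KE hiding count_close lines_ae bound_ae tendsto_close box_zero orth_line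
  line_bound zero_real zero_complex
open Pool.Agent.Zk89.KB (expand bxc_sum exists_pos bxc_sub tendsto_sub)

variable {X : Type*} {mA mY mX : MeasurableSpace X} {μ : Measure X} [IsProbabilityMeasure μ]
variable {G : Type*} [Group G]
variable {Φ : G →* Equiv.Perm X} {ℓ : G → ℝ}
variable {J : Type*} [DecidableEq J] [Fintype J] {k : ℕ}

/-- the element `c w_1(n_1) ⋯ w_k(n_k)` -/
def el (c : G) (w : Fin k → ℕ → G) (n : Fin k → ℕ) : G :=
  c * (List.ofFn fun l => w l (n l)).prod

theorem ell_el (hA : Filt mX mA Φ ℓ) (c : G) (w : Fin k → ℕ → G) (n : Fin k → ℕ) :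
    ℓ (el c w n) = ℓ c + ∑ l, ℓ (w l (n l)) := by
  unfold el
  rw [hA.hom]
  congr 1
  induction k with
  | zero => simp [hA.one]
  | succ k ih =>
    rw [List.ofFn_succ, List.prod_cons, hA.hom, Fin.sum_univ_succ,
      ih (fun l => w l.succ) (fun l => n l.succ)]

theorem el_congr {c : G} {w : Fin k → ℕ → G} {n n' : Fin k → ℕ}
    (h : ∀ l, n l = n' l ∨ ∀ t, w l t = 1) : el c w n = el c w n' := by
  unfold el
  congr 3
  funext l
  rcases h l with h | h
  · rw [h]
  · rw [h, h]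

theorem good_el (hFl : Flow μ Φ) (c : G) (w : Fin k → ℕ → G)
    (hw : ∀ l, Pool.Agent.Zk89.BT.G1 μ fun n => (Φ (w l n) : X → X)) :
    Good1 μ (fun n : Fin k → ℕ => (Φ (el c w n) : X → X)) := fun H hH hb =>
  Pool.Agent.Zk89.BT.good_prod hFl c w hw H hH hb

/-- **The base is characteristic**, for sequences depending on all parameters. -/
theorem char_box (hk : 0 < k) (hK : KExt μ mA mY Φ ℓ) (c : J → G) (w : J → Fin k → ℕ → G)
    (hst : ∀ j l, Steep fun t => ℓ (w j l t))
    (hne : ∀ i j, i ≠ j → ∃ l, Steep fun t => ℓ (w i l t) - ℓ (w j l t))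
    (hgood : ∀ j, Good1 μ (fun n : Fin k → ℕ => (Φ (el (c j) (w j) n) : X → X)))
    {f e : J → X → ℂ}
    (hf : ∀ j, @BM X mX (f j)) (he : ∀ j, @BM X mX (e j)) (heY : ∀ j, Measurable[mY] (e j))
    (hfe : ∀ j, ∀ B : Set X, MeasurableSet[mY] B → ∫ x in B, (f j x - e j x) ∂μ = 0) :
    ∀ᵐ x ∂μ, Tendsto (fun N => bxc k N fun n => (∏ j, f j (Φ (el (c j) (w j) n) x) -
      ∏ j, e j (Φ (el (c j) (w j) n) x))) atTop (𝓝 0) := by
  classical
  refine expand (g := fun j n => (Φ (el (c j) (w j) n) : X → X)) fun t ht => ?_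
  obtain ⟨j₀, hj₀⟩ := ht
  obtain ⟨s₀, hs₀⟩ : ∃ s₀ : G, 0 < ℓ s₀ := by
    by_contra hcon
    push Not at hcon
    have h1 : ∀ g : G, ℓ g = 0 := by
      intro g
      have h2 := hcon g
      have h3 := hcon g⁻¹
      rw [hK.filt.inv] at h3
      linarith
    obtain ⟨T, δ, hδ, h | h⟩ := hst j₀ ⟨0, hk⟩
    · have := h T le_rfl
      simp only [h1] at this
      linarith
    · have := h T le_rfl
      simp only [h1] at this
      linarith
  exact zero_complex (S := t) (q := fun n j => el (c j) (w j) n) (lam := fun j => ℓ (c j))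
      (Q := fun j l t => ℓ (w j l t)) hk hK hs₀
      (fun n v => ell_el hK.filt _ _ _)
      (fun v _ l h => absurd (hst v l) h) (fun l => ⟨j₀, hj₀, hst j₀ l⟩)
      (fun v _ w' _ hvw => hne v w' hvw) (fun v => hgood v)
      (F := fun j => if j ∈ t then (fun x => f j x - e j x) else e j) (fun v => by
        by_cases hv : v ∈ t
        · simp only [hv, if_true]
          obtain ⟨m₁, C₁, b₁⟩ := hf v
          obtain ⟨m₂, C₂, b₂⟩ := he v
          exact ⟨⟨m₁.sub m₂, C₁ + C₂, fun x => (norm_sub_le _ _).trans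
            (add_le_add (b₁ x) (b₂ x))⟩, fun _ => hfe v, fun h => absurd hv h⟩
        · simp only [hv, if_false]
          exact ⟨he v, fun h => absurd h hv, fun _ => heY v⟩)

/-- Kolmogorov actions: convergence to zero. -/
theorem zero_tr (hK : KExt μ mA ⊥ Φ ℓ) (hinj : ∀ g : G, ℓ g = 0 → g = 1)
    (c : J → G) (w : J → Fin k → ℕ → G) {S : Finset J} (hS : S.Nonempty)
    (hw1 : ∀ j l, (Steep fun t => ℓ (w j l t)) ∨ ∀ t, w j l t = 1)
    (hG1 : ∀ j l, Pool.Agent.Zk89.BT.G1 μ fun n => (Φ (w j l n) : X → X))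
    (hw2 : ∀ i j l, (Steep fun t => ℓ (w i l t) - ℓ (w j l t)) ∨ ∀ t, w i l t = w j l t)
    (hw0 : ∀ j ∈ S, ∃ l, ¬ ∀ t, w j l t = 1)
    (hw : ∀ i ∈ S, ∀ j ∈ S, i ≠ j → ∃ l, ¬ ∀ t, w i l t = w j l t)
    {F : J → X → ℂ} (hF : ∀ v, @BM X mX (F v)) (hF0 : ∀ v ∈ S, ∫ x, F v x ∂μ = 0)
    (hFc : ∀ v ∉ S, ∃ κ : ℂ, F v = fun _ => κ) :
    Cz μ (fun v n => (Φ (el (c v) (w v) n) : X → X)) F := by
  classical
  have hℓ1 : ℓ 1 = 0 := hK.filt.one
  have hinj' : ∀ g h : G, ℓ g = ℓ h → g = h := by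
    intro g h hgh
    have : ℓ (g * h⁻¹) = 0 := by
      rw [hK.filt.hom, hK.filt.inv]
      linarith
    exact mul_inv_eq_one.1 (hinj _ this)
  have hnst : ∀ j l, ¬ (Steep fun t => ℓ (w j l t)) → ∀ t, w j l t = 1 := fun j l h =>
    (hw1 j l).resolve_left h
  have hst0 : ∀ j l, (∀ t, w j l t = 1) → ¬ (Steep fun t => ℓ (w j l t)) := by
    intro j l h1 h2
    obtain ⟨T, δ, hδ, h | h⟩ := h2
    · have := h T le_rfl
      simp only [h1] at this
      linarith
    · have := h T le_rfl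
      simp only [h1] at this
      linarith
  set L : Finset (Fin k) := Finset.univ.filter fun l => ∃ v ∈ S, Steep fun t => ℓ (w v l t)
    with hL
  set e : Fin L.card → Fin k := fun i => L.orderEmbOfFin rfl i with he
  have heinj : Function.Injective e := (L.orderEmbOfFin rfl).injective
  have hrange : ∀ l, l ∈ L → ∃ i, e i = l := by
    intro l hl
    have : l ∈ Set.range (L.orderEmbOfFin rfl) := by
      rw [Finset.range_orderEmbOfFin]
      exact hl
    exact this
  have hmem : ∀ i, e i ∈ L := fun i => Finset.orderEmbOfFin_mem L rfl i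
  obtain ⟨j₀, hj₀⟩ := hS
  obtain ⟨l₀, hl₀⟩ := hw0 j₀ hj₀
  have hl₀' : Steep fun t => ℓ (w j₀ l₀ t) := (hw1 j₀ l₀).resolve_right hl₀
  have hL0 : 0 < L.card := Finset.card_pos.2 ⟨l₀, Finset.mem_filter.2
    ⟨Finset.mem_univ _, j₀, hj₀, hl₀'⟩⟩
  obtain ⟨s₀, hs₀⟩ : ∃ s₀ : G, 0 < ℓ s₀ := by
    push Not at hl₀
    obtain ⟨t, ht⟩ := hl₀
    exact exists_pos hK.filt (fun h => ht (hinj _ h) : ℓ (w j₀ l₀ t) ≠ 0)
  have hz := zero_complex (S := S) (q := fun n j => el (c j) (fun i => w j (e i)) n)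
      (lam := fun j => ℓ (c j)) (Q := fun j i t => ℓ (w j (e i) t)) hL0 hK hs₀
      (fun n v => ell_el hK.filt _ _ _)
      (fun v _ l h n t => by
        apply el_congr
        intro i
        by_cases hi : i = l
        · right
          rw [hi]
          exact hnst _ _ h
        · left
          rw [Function.update_of_ne hi])
      (fun l => (Finset.mem_filter.1 (hmem l)).2)
      (fun v hv w' hw' hvw => by
        obtain ⟨l, hl⟩ := hw v hv w' hw' hvw
        have hlL : l ∈ L := by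
          rw [hL, Finset.mem_filter]
          refine ⟨Finset.mem_univ _, ?_⟩
          by_contra hcon
          push Not at hcon
          apply hl
          intro t
          rw [hnst _ _ (hcon v hv), hnst _ _ (hcon w' hw')]
        obtain ⟨i, rfl⟩ := hrange l hlL
        exact ⟨i, (hw2 v w' (e i)).resolve_right hl⟩)
      (fun v => good_el hK.fl (c v) _ fun l => hG1 v (e l))
      (F := F) (fun v => by
        refine ⟨hF v, fun hv B hB => ?_, fun hv => ?_⟩
        · rcases (MeasurableSpace.measurableSet_bot_iff.1 hB) with h | h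
          · rw [h]
            simp
          · rw [h, setIntegral_univ]
            exact hF0 v hv
        · obtain ⟨κ, h⟩ := hFc v hv
          rw [h]
          exact measurable_const)
  filter_upwards [hz] with x hx
  have h1 := hx.comp (tendsto_sub e)
  have hval : ∀ (v : J) (n : Fin k → ℕ), F v (Φ (el (c v) (w v) n) x) =
      F v (Φ (el (c v) (fun i => w v (e i)) (fun i => n (e i))) x) := by
    intro v n
    by_cases hv : v ∈ S
    · congr 3
      apply hinj'
      rw [ell_el hK.filt, ell_el hK.filt]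
      congr 1
      have h3 : ∑ l, ℓ (w v l (n l)) = ∑ l ∈ Finset.univ.image e, ℓ (w v l (n l)) := by
        refine (Finset.sum_subset (Finset.subset_univ _) fun l _ hl => ?_).symm
        have h4 : ∀ t, w v l t = 1 := by
          apply hnst
          intro hcon
          have hlL : l ∈ L := Finset.mem_filter.2 ⟨Finset.mem_univ _, v, hv, hcon⟩
          obtain ⟨i, hi⟩ := hrange l hlL
          exact hl (Finset.mem_image.2 ⟨i, Finset.mem_univ _, hi⟩)
        rw [h4, hℓ1]
      rw [h3, Finset.sum_image fun x _ y _ h => heinj h]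
    · obtain ⟨κ, h⟩ := hFc v hv
      rw [h]
  refine h1.congr' ?_
  filter_upwards [eventually_ge_atTop (fun _ : Fin k => 1)] with N hN
  rw [Function.comp_apply]
  have h2 := Pool.Agent.Zk89.KB.bxc_sub e heinj (N := N) (fun i => hN i)
    (fun n => ∏ v, F v (Φ (el (c v) (fun i => w v (e i)) n) x))
  rw [← h2]
  congr 1
  funext n
  exact Finset.prod_congr rfl fun v _ => (hval v n).symm

/-- Kolmogorov actions: distinct nonconstant sequences, the limit is the product of the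
integrals. -/
theorem conv_tr (hK : KExt μ mA ⊥ Φ ℓ) (hinj : ∀ g : G, ℓ g = 0 → g = 1)
    (c : J → G) (w : J → Fin k → ℕ → G)
    (hw1 : ∀ j l, (Steep fun t => ℓ (w j l t)) ∨ ∀ t, w j l t = 1)
    (hG1 : ∀ j l, Pool.Agent.Zk89.BT.G1 μ fun n => (Φ (w j l n) : X → X))
    (hw2 : ∀ i j l, (Steep fun t => ℓ (w i l t) - ℓ (w j l t)) ∨ ∀ t, w i l t = w j l t)
    (hw0 : ∀ j, ∃ l, ¬ ∀ t, w j l t = 1)
    (hw : ∀ i j, i ≠ j → ∃ l, ¬ ∀ t, w i l t = w j l t)
    {F : J → X → ℂ} (hF : ∀ v, @BM X mX (F v)) :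
    ∀ᵐ x ∂μ, Tendsto (fun N => bxc k N fun n => ∏ j, F j (Φ (el (c j) (w j) n) x)) atTop
      (𝓝 (∏ j, ∫ x, F j x ∂μ)) := by
  classical
  have h1 := expand (μ := μ) (g := fun j n => (Φ (el (c j) (w j) n) : X → X)) (f := F)
    (e := fun j _ => ∫ x, F j x ∂μ) fun t ht => by
      refine zero_tr hK hinj c w ht hw1 hG1 hw2 (fun j _ => hw0 j) (fun i _ j _ h => hw i j h)
        ?_ ?_ ?_
      · intro v
        obtain ⟨hm, C, hC⟩ := hF v
        by_cases hv : v ∈ t
        · simp only [hv, if_true]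
          exact ⟨hm.sub measurable_const, C + ‖∫ x, F v x ∂μ‖, fun x =>
            (norm_sub_le _ _).trans (add_le_add (hC x) le_rfl)⟩
        · simp only [hv, if_false]
          exact ⟨measurable_const, ‖∫ x, F v x ∂μ‖, fun x => le_rfl⟩
      · intro v hv
        obtain ⟨hm, C, hC⟩ := hF v
        simp only [hv, if_true]
        have hi : Integrable (F v) μ := Integrable.of_bound hm.aestronglyMeasurable C
          (Eventually.of_forall hC)
        rw [integral_sub hi (integrable_const _), integral_const, probReal_univ, one_smul,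
          sub_self]
      · intro v hv
        exact ⟨∫ x, F v x ∂μ, by simp only [hv, if_false]⟩
  filter_upwards [h1] with x hx
  have h2 := hx.add (tendsto_const_nhds (x := ∏ j, ∫ x, F j x ∂μ))
  rw [zero_add] at h2
  refine h2.congr' ?_
  filter_upwards [eventually_ge_atTop (fun _ : Fin k => 1)] with N hN
  have h3 : ∏ j, ∫ x, F j x ∂μ = bxc k N fun _ => ∏ j, ∫ x, F j x ∂μ := by
    unfold Pool.Agent.W761.Box.bxc
    rw [Finset.sum_const, nsmul_eq_mul, Fintype.card_piFinset]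
    have h4 : (∏ j, (N j : ℂ)) ≠ 0 := Finset.prod_ne_zero_iff.2 fun j _ => by
      have := hN j
      have h5 : (1 : ℕ) ≤ N j := this
      exact_mod_cast (by omega : N j ≠ 0)
    simp only [Finset.card_range]
    push_cast
    field_simp
  nth_rewrite 2 [h3]
  rw [← bxc_add]
  congr 1
  funext n
  ring

theorem el_one_one (n : Fin k → ℕ) : el (1 : G) (fun _ _ => 1) n = 1 := by
  unfold el
  rw [one_mul]
  induction k with
  | zero => simp
  | succ k ih =>
    rw [List.ofFn_succ, List.prod_cons, ih (fun l => n l.succ), one_mul]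

theorem el_split (c : G) (w : Fin k → ℕ → G) (n : Fin k → ℕ) : el c w n = c * el 1 w n := by
  unfold el
  rw [one_mul]

/-- grouping of the functions with the same sequence -/
theorem group (hFl : Flow μ Φ) (c : J → G) (w : J → Fin k → ℕ → G) {F : J → X → ℂ}
    (hF : ∀ v, @BM X mX (F v)) : ∃ (A : Finset (Fin k → ℕ → G)) (H : (Fin k → ℕ → G) → X → ℂ),
      (∀ α ∈ A, ∃ j, w j = α) ∧ (∀ α, @BM X mX (H α)) ∧
      ∀ (n : Fin k → ℕ) (x : X), ∏ j, F j (Φ (el (c j) (w j) n) x) =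
      ∏ α ∈ A, H α (Φ (el 1 α n) x) := by
  classical
  set A : Finset (Fin k → ℕ → G) := Finset.univ.image w with hA
  refine ⟨A, fun α y => ∏ j with w j = α, F j (Φ (c j) y), ?_, ?_, ?_⟩
  · intro α hα
    obtain ⟨j, -, hj⟩ := Finset.mem_image.1 hα
    exact ⟨j, hj⟩
  · intro α
    choose hm C hC using hF
    refine ⟨Finset.measurable_fun_prod _ fun j _ => (hm j).comp (hFl (c j)).measurable,
      ∏ j with w j = α, |C j|, fun x => ?_⟩
    show ‖∏ j with w j = α, F j (Φ (c j) x)‖ ≤ _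
    rw [norm_prod]
    exact Finset.prod_le_prod (fun j _ => norm_nonneg _) fun j _ =>
      (hC j _).trans (le_abs_self _)
  · intro n x
    rw [← Finset.prod_fiberwise_of_maps_to
      (fun j _ => Finset.mem_image_of_mem w (Finset.mem_univ j) : ∀ j ∈ Finset.univ, w j ∈ A)]
    refine Finset.prod_congr rfl fun α _ => ?_
    show _ = ∏ j with w j = α, F j (Φ (c j) (Φ (el 1 α n) x))
    refine Finset.prod_congr rfl fun j hj => ?_
    rw [el_split, map_mul, Equiv.Perm.mul_apply, (Finset.mem_filter.1 hj).2]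

/-- Kolmogorov actions: arbitrary sequences. -/
theorem conv_all (hK : KExt μ mA ⊥ Φ ℓ) (hinj : ∀ g : G, ℓ g = 0 → g = 1)
    (c : J → G) (w : J → Fin k → ℕ → G)
    (hw1 : ∀ j l, (Steep fun t => ℓ (w j l t)) ∨ ∀ t, w j l t = 1)
    (hG1 : ∀ j l, Pool.Agent.Zk89.BT.G1 μ fun n => (Φ (w j l n) : X → X))
    (hw2 : ∀ i j l, (Steep fun t => ℓ (w i l t) - ℓ (w j l t)) ∨ ∀ t, w i l t = w j l t)
    {F : J → X → ℂ} (hF : ∀ v, @BM X mX (F v)) :
    ∀ᵐ x ∂μ, ∃ L, Tendsto (fun N => bxc k N fun n => ∏ j, F j (Φ (el (c j) (w j) n) x)) atTop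
      (𝓝 L) := by
  classical
  obtain ⟨A, H, hA, hH, hgroup⟩ := group hK.fl c w hF
  have hmain := conv_tr (μ := μ) hK hinj (J := {α // α ∈ A.erase (fun _ _ => 1)})
    (fun _ => 1) (fun α => α.1)
    (fun α l => by
      obtain ⟨j, hj⟩ := hA α.1 (Finset.mem_of_mem_erase α.2)
      rw [← hj]
      exact hw1 j l)
    (fun α l => by
      obtain ⟨j, hj⟩ := hA α.1 (Finset.mem_of_mem_erase α.2)
      rw [← hj]
      exact hG1 j l)
    (fun α β l => by
      obtain ⟨i, hi⟩ := hA α.1 (Finset.mem_of_mem_erase α.2)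
      obtain ⟨j, hj⟩ := hA β.1 (Finset.mem_of_mem_erase β.2)
      rw [← hi, ← hj]
      exact hw2 i j l)
    (fun α => by
      have h1 : α.1 ≠ fun _ _ => 1 := Finset.ne_of_mem_erase α.2
      obtain ⟨l, hl⟩ := Function.ne_iff.1 h1
      exact ⟨l, fun h => hl (funext h)⟩)
    (fun α β hαβ => by
      have h1 : α.1 ≠ β.1 := fun h => hαβ (Subtype.ext h)
      obtain ⟨l, hl⟩ := Function.ne_iff.1 h1
      exact ⟨l, fun h => hl (funext h)⟩) (F := fun α => H α.1) (fun α => hH α.1)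
  have hcoe : ∀ (n : Fin k → ℕ) (x : X),
      ∏ j : {α // α ∈ A.erase (fun _ _ => 1)}, H j.1 (Φ (el 1 j.1 n) x) =
      ∏ α ∈ A.erase (fun _ _ => 1), H α (Φ (el 1 α n) x) := fun n x =>
    Finset.prod_coe_sort (A.erase (fun _ _ => 1)) (fun α => H α (Φ (el 1 α n) x))
  filter_upwards [hmain] with x hx
  by_cases h1 : (fun _ _ => 1 : Fin k → ℕ → G) ∈ A
  · refine ⟨H (fun _ _ => 1) x * _, (hx.const_mul (H (fun _ _ => 1) x)).congr fun N => ?_⟩
    rw [← bxc_mul]
    congr 1
    funext n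
    rw [hgroup, ← Finset.mul_prod_erase _ _ h1, el_one_one, map_one, Equiv.Perm.one_apply,
      hcoe]
  · refine ⟨_, hx.congr fun N => ?_⟩
    congr 1
    funext n
    rw [hgroup, hcoe, Finset.erase_eq_of_notMem h1]

/-- **Passage to Kolmogorov extensions**, one parameter. -/
theorem conv_ext (hK : KExt μ mA mY Φ ℓ) (c : J → G) (w : J → ℕ → G)
    (hw1 : ∀ j, (Steep fun t => ℓ (w j t)) ∨ ∀ t, w j t = 1)
    (hG1 : ∀ j, Pool.Agent.Zk89.BT.G1 μ fun n => (Φ (w j n) : X → X))
    (hw2 : ∀ i j, (Steep fun t => ℓ (w i t) - ℓ (w j t)) ∨ ∀ t, w i t = w j t)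
    (hbase : ∀ (I : Type) [Fintype I] (a : I → J) (e : I → X → ℂ),
      (∀ i, @BM X mX (e i)) → (∀ i, Measurable[mY] (e i)) →
      ∀ᵐ x ∂μ, ∃ L : ℂ, Tendsto (fun N : ℕ => (N : ℂ)⁻¹ * ∑ t ∈ Finset.range N,
        ∏ i, e i (Φ (w (a i) t) x)) atTop (𝓝 L))
    {F : J → X → ℂ} (hF : ∀ v, @BM X mX (F v)) :
    ∀ᵐ x ∂μ, ∃ L, Tendsto (fun N : ℕ => (N : ℂ)⁻¹ * ∑ t ∈ Finset.range N,
      ∏ j, F j (Φ (c j * w j t) x)) atTop (𝓝 L) := by
  classical
  obtain ⟨A, H, hA, hH, hgroup⟩ := group hK.fl c (fun j (_ : Fin 1) => w j) hF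
  set A' := A.erase (fun _ _ => 1) with hA'
  have hYX : mY ≤ mX := hK.base.le.trans hK.filt.le
  choose e he heY hee hfe using fun α => exists_cond (μ := μ) hYX (hH α)
  have hrep : ∀ α : {α // α ∈ A'}, ∃ j, (fun (_ : Fin 1) => w j) = α.1 := fun α =>
    hA α.1 (Finset.mem_of_mem_erase α.2)
  choose a ha using hrep
  have hel : ∀ (α : {α // α ∈ A'}) (n : Fin 1 → ℕ), el 1 α.1 n = w (a α) (n 0) := by
    intro α n
    rw [← ha α]
    unfold el
    simp
  have hchar := char_box (μ := μ) (J := {α // α ∈ A'}) one_pos hK (fun _ => 1)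
    (fun α => α.1)
    (fun α l => by
      have h1 : α.1 ≠ fun _ _ => 1 := Finset.ne_of_mem_erase α.2
      rw [← ha α] at h1 ⊢
      refine (hw1 (a α)).resolve_right fun h => h1 ?_
      funext _ t
      exact h t)
    (fun α β hαβ => by
      have h1 : α.1 ≠ β.1 := fun h => hαβ (Subtype.ext h)
      refine ⟨0, ?_⟩
      rw [← ha α, ← ha β] at h1 ⊢
      refine (hw2 (a α) (a β)).resolve_right fun h => h1 ?_
      funext _ t
      exact h t)
    (fun α => good_el hK.fl _ _ fun l => by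
      rw [← ha α]
      exact hG1 (a α))
    (f := fun α => H α.1) (e := fun α => e α.1) (fun α => hH α.1) (fun α => he α.1)
    (fun α => heY α.1) (fun α => hfe α.1)
  -- the base
  obtain ⟨m, ⟨eq⟩⟩ : ∃ m : ℕ, Nonempty (Fin m ≃ {α // α ∈ A'}) :=
    ⟨Fintype.card {α // α ∈ A'}, ⟨(Fintype.equivFin _).symm⟩⟩
  have hb := hbase (Fin m) (fun i => a (eq i)) (fun i => e (eq i).1) (fun i => he _)
    (fun i => heY _)
  filter_upwards [hchar, hb] with x hx1 hx2
  obtain ⟨L, hL⟩ := hx2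
  have h3 := hx1.comp tendsto_one
  have h4 := (h3.add hL)
  rw [zero_add] at h4
  have hcoe : ∀ (f : (Fin 1 → ℕ → G) → X → ℂ) (n : Fin 1 → ℕ) (x : X),
      ∏ j : {α // α ∈ A'}, f j.1 (Φ (el 1 j.1 n) x) =
      ∏ α ∈ A', f α (Φ (el 1 α n) x) := fun f n x =>
    Finset.prod_coe_sort A' (fun α => f α (Φ (el 1 α n) x))
  have hkey : Tendsto (fun N : ℕ => (N : ℂ)⁻¹ * ∑ t ∈ Finset.range N,
      ∏ α ∈ A', H α (Φ (el 1 α fun _ => t) x)) atTop (𝓝 L) := by
    refine h4.congr fun N => ?_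
    simp only [Function.comp_apply]
    rw [Pool.Agent.Zk89.MT.bxc_one, ← mul_add, ← Finset.sum_add_distrib]
    congr 1
    refine Finset.sum_congr rfl fun t _ => ?_
    rw [← hcoe H]
    have h5 : ∏ i, e (eq i).1 (Φ (w (a (eq i)) t) x) =
        ∏ α : {α // α ∈ A'}, e α.1 (Φ (el 1 α.1 fun _ => t) x) := by
      rw [← Equiv.prod_comp eq]
      refine Finset.prod_congr rfl fun i _ => ?_
      rw [hel]
    rw [h5]
    ring
  have hF' : ∀ t : ℕ, ∏ j, F j (Φ (c j * w j t) x) =
      ∏ α ∈ A, H α (Φ (el 1 α fun _ => t) x) := by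
    intro t
    rw [← hgroup]
    refine Finset.prod_congr rfl fun j _ => ?_
    unfold el
    simp
  simp only [hF']
  by_cases h1 : (fun _ _ => 1 : Fin 1 → ℕ → G) ∈ A
  · refine ⟨H (fun _ _ => 1) x * L, (hkey.const_mul (H (fun _ _ => 1) x)).congr fun N => ?_⟩
    rw [mul_left_comm, Finset.mul_sum]
    congr 1
    refine Finset.sum_congr rfl fun t _ => ?_
    rw [← Finset.mul_prod_erase _ _ h1, el_one_one, map_one, Equiv.Perm.one_apply]
  · refine ⟨L, hkey.congr fun N => ?_⟩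
    rw [hA', Finset.erase_eq_of_notMem h1]

end Pool.Agent.Zk89.KC
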